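import Pool.Agent.H71.NU.Clo

set_option autoImplicit false
set_option linter.unusedSectionVars false

/-!
# Sums of products of functions are dense
-/

namespace Pool.Agent.H71.IE

open Filter Topology MeasureTheory
open scoped ENNReal
open Pool.Agent.H71.WW (BM)
open Pool.Agent.H71.NU (BM_add BM_smul BM.int ind_BM)

noncomputable section

variable {Y Z : Type} [MeasurableSpace Y] [MeasurableSpace Z] [TopologicalSpace Z]

/-- finite sums of products `h(y) u(z)` -/
def Tn (Y Z : Type) [TopologicalSpace Z] [MeasurableSpace Y] : Submodule ℂ (Y × Z → ℂ) :=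
  Submodule.span ℂ {f | ∃ (h : Y → ℂ) (u : Z → ℂ), BM h ∧ Continuous u ∧
    f = fun z => h z.1 * u z.2}

theorem BM_tens {h : Y → ℂ} {u : Z → ℂ} (hh : BM h) (hu : BM u) :
    BM (fun z : Y × Z => h z.1 * u z.2) := by
  obtain ⟨h1, c, hc⟩ := hh
  obtain ⟨h2, d, hd⟩ := hu
  refine ⟨(h1.comp measurable_fst).mul (h2.comp measurable_snd), |c| * |d|, fun z => ?_⟩
  rw [norm_mul]
  exact mul_le_mul ((hc _).trans (le_abs_self _)) ((hd _).trans (le_abs_self _)) (norm_nonneg _)
    (abs_nonneg _)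

variable [CompactSpace Z] [BorelSpace Z]

theorem BM_cont {u : Z → ℂ} (hu : Continuous u) : BM u :=
  ⟨hu.measurable, ‖(⟨u, hu⟩ : C(Z, ℂ))‖, fun x =>
    ContinuousMap.norm_coe_le_norm (⟨u, hu⟩ : C(Z, ℂ)) x⟩

theorem BM_Tn {f : Y × Z → ℂ} (hf : f ∈ Tn Y Z) : BM f := by
  refine Submodule.span_induction (p := fun f _ => BM f) ?_ ?_ ?_ ?_ hf
  · rintro _ ⟨h, u, hh, hu, rfl⟩
    exact BM_tens hh (BM_cont hu)
  · exact ⟨measurable_const, 0, fun x => by simp⟩
  · rintro f g _ _ hf hg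
    exact BM_add hf hg
  · rintro c f _ hf
    exact BM_smul c hf

variable [NormalSpace Z] {μ : Measure Z} [IsProbabilityMeasure μ] [μ.WeaklyRegular]
  {ν : Measure Y} [IsProbabilityMeasure ν]

/-- sums of products are dense in `L¹` -/
theorem Tn_dense {f : Y × Z → ℂ} (hf : BM f) {ε : ℝ} (hε : 0 < ε) :
    ∃ p ∈ Tn Y Z, ∫ z, ‖f z - p z‖ ∂(ν.prod μ) ≤ ε := by
  -- the class of approximable functions
  set 𝒞 : Set (Y × Z → ℂ) := {f | BM f ∧ ∀ ε : ℝ, 0 < ε → ∃ p ∈ Tn Y Z,
    ∫ z, ‖f z - p z‖ ∂(ν.prod μ) ≤ ε} with h𝒞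
  have hint : ∀ f p : Y × Z → ℂ, BM f → p ∈ Tn Y Z →
      Integrable (fun z => ‖f z - p z‖) (ν.prod μ) := fun f p hf hp =>
    ((BM.int hf).sub (BM.int (BM_Tn hp))).norm
  have hadd : ∀ f f', f ∈ 𝒞 → f' ∈ 𝒞 → f + f' ∈ 𝒞 := by
    rintro f f' ⟨h1, h2⟩ ⟨h3, h4⟩
    refine ⟨BM_add h1 h3, fun ε hε => ?_⟩
    obtain ⟨p, hp, hpi⟩ := h2 (ε / 2) (half_pos hε)
    obtain ⟨p', hp', hpi'⟩ := h4 (ε / 2) (half_pos hε)
    refine ⟨p + p', add_mem hp hp', ?_⟩
    calc ∫ z, ‖(f + f') z - (p + p') z‖ ∂(ν.prod μ) ≤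
          ∫ z, (‖f z - p z‖ + ‖f' z - p' z‖) ∂(ν.prod μ) := by
          refine integral_mono (hint _ _ (BM_add h1 h3) (add_mem hp hp'))
            ((hint _ _ h1 hp).add (hint _ _ h3 hp')) fun z => ?_
          show ‖(f z + f' z) - (p z + p' z)‖ ≤ _
          rw [add_sub_add_comm]
          exact norm_add_le _ _
      _ = ∫ z, ‖f z - p z‖ ∂(ν.prod μ) + ∫ z, ‖f' z - p' z‖ ∂(ν.prod μ) :=
          integral_add (hint _ _ h1 hp) (hint _ _ h3 hp')
      _ ≤ ε := by linarith
  have hsmul : ∀ (c : ℂ) f, f ∈ 𝒞 → c • f ∈ 𝒞 := by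
    rintro c f ⟨h1, h2⟩
    refine ⟨BM_smul c h1, fun ε hε => ?_⟩
    obtain ⟨p, hp, hpi⟩ := h2 (ε / (‖c‖ + 1)) (by positivity)
    refine ⟨c • p, Submodule.smul_mem _ c hp, ?_⟩
    have e : ∀ z, ‖(c • f) z - (c • p) z‖ = ‖c‖ * ‖f z - p z‖ := fun z => by
      rw [Pi.smul_apply, Pi.smul_apply, ← smul_sub, norm_smul]
    simp_rw [e]
    rw [integral_const_mul]
    have h0 : 0 ≤ ∫ z, ‖f z - p z‖ ∂(ν.prod μ) := integral_nonneg fun z => norm_nonneg _
    calc ‖c‖ * ∫ z, ‖f z - p z‖ ∂(ν.prod μ) ≤ (‖c‖ + 1) * (ε / (‖c‖ + 1)) :=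
          mul_le_mul (by linarith) hpi h0 (by positivity)
      _ = ε := by field_simp
  have hcl : ∀ f, BM f → (∀ ε : ℝ, 0 < ε → ∃ f' ∈ 𝒞, ∫ z, ‖f z - f' z‖ ∂(ν.prod μ) ≤ ε) →
      f ∈ 𝒞 := by
    intro f hf h
    refine ⟨hf, fun ε hε => ?_⟩
    obtain ⟨f', ⟨h1, h2⟩, h3⟩ := h (ε / 2) (half_pos hε)
    obtain ⟨p, hp, hpi⟩ := h2 (ε / 2) (half_pos hε)
    refine ⟨p, hp, ?_⟩
    have hi : Integrable (fun z => ‖f z - f' z‖) (ν.prod μ) := ((BM.int hf).sub (BM.int h1)).norm
    calc ∫ z, ‖f z - p z‖ ∂(ν.prod μ) ≤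
          ∫ z, (‖f z - f' z‖ + ‖f' z - p z‖) ∂(ν.prod μ) := by
          refine integral_mono (hint _ _ hf hp) (hi.add (hint _ _ h1 hp)) fun z => ?_
          have e : f z - p z = (f z - f' z) + (f' z - p z) := by ring
          show ‖f z - p z‖ ≤ _
          rw [e]
          exact norm_add_le _ _
      _ = ∫ z, ‖f z - f' z‖ ∂(ν.prod μ) + ∫ z, ‖f' z - p z‖ ∂(ν.prod μ) :=
          integral_add hi (hint _ _ h1 hp)
      _ ≤ ε := by linarith
  have hind : ∀ s : Set (Y × Z), MeasurableSet s → s.indicator (fun _ => (1 : ℂ)) ∈ 𝒞 := by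
    intro s hs
    induction s, hs using MeasurableSpace.induction_on_inter generateFrom_prod.symm
      isPiSystem_prod with
    | empty =>
      rw [Set.indicator_empty]
      refine ⟨⟨measurable_const, 0, fun _ => by simp⟩, fun ε hε => ⟨0, zero_mem _, ?_⟩⟩
      simp [hε.le]
    | basic u hu =>
      obtain ⟨s, hs, t, ht, rfl⟩ := hu
      have hs' : MeasurableSet s := hs
      have ht' : MeasurableSet t := ht
      refine ⟨ind_BM (hs'.prod ht') 1, fun ε hε => ?_⟩
      have hti0 : Integrable (t.indicator fun _ => (1 : ℂ)) μ := BM.int (ind_BM ht' 1)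
      obtain ⟨g, hgi, -⟩ := hti0.exists_boundedContinuous_integral_sub_le hε
      obtain ⟨p, hpc, hpi⟩ : ∃ p : Z → ℂ, Continuous p ∧
          ∫ x, ‖t.indicator (fun _ => (1 : ℂ)) x - p x‖ ∂μ ≤ ε := ⟨g, g.continuous, hgi⟩
      have hps : (fun z : Y × Z => s.indicator (fun _ => (1 : ℂ)) z.1 * p z.2) ∈ Tn Y Z :=
        Submodule.subset_span ⟨_, p, ind_BM hs' 1, hpc, rfl⟩
      refine ⟨_, hps, ?_⟩
      have e1 : ∀ z : Y × Z, ‖(s ×ˢ t).indicator (fun _ => (1 : ℂ)) z -
          s.indicator (fun _ => (1 : ℂ)) z.1 * p z.2‖ ≤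
          ‖t.indicator (fun _ => (1 : ℂ)) z.2 - p z.2‖ := by
        intro z
        by_cases h0 : z.1 ∈ s
        · by_cases h1 : z.2 ∈ t <;> simp [h0, h1, Set.indicator]
        · simp [h0, Set.indicator]
      have hti : Integrable (fun x => ‖t.indicator (fun _ => (1 : ℂ)) x - p x‖) μ :=
        ((BM.int (ind_BM ht' 1)).sub (BM.int (BM_cont hpc))).norm
      have hti' : Integrable (fun z : Y × Z => ‖t.indicator (fun _ => (1 : ℂ)) z.2 - p z.2‖)
          (ν.prod μ) := by
        have := hti.comp_snd ν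
        exact this
      refine (integral_mono (hint _ _ (ind_BM (hs'.prod ht') 1) hps) hti' e1).trans ?_
      have e2 := integral_prod (μ := ν) (ν := μ)
        (fun z : Y × Z => ‖t.indicator (fun _ => (1 : ℂ)) z.2 - p z.2‖) hti'
      rw [e2]
      simp only [integral_const, probReal_univ, smul_eq_mul, one_mul]
      exact hpi
    | compl s hs ih =>
      have h1 : (fun _ : Y × Z => (1 : ℂ)) ∈ 𝒞 := by
        refine ⟨⟨measurable_const, 1, fun _ => by simp⟩, fun ε hε =>
          ⟨fun _ => 1, ?_, by simp [hε.le]⟩⟩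
        refine Submodule.subset_span ⟨fun _ => 1, fun _ => 1,
          ⟨measurable_const, 1, fun _ => by simp⟩, continuous_const, ?_⟩
        funext z
        simp
      have h2 := hadd _ _ h1 (hsmul (-1) _ ih)
      have e : (fun _ : Y × Z => (1 : ℂ)) + (-1 : ℂ) • s.indicator (fun _ => (1 : ℂ)) =
          sᶜ.indicator fun _ => (1 : ℂ) := by
        funext z
        by_cases hz : z ∈ s <;> simp [hz]
      rwa [e] at h2
    | iUnion f hd hf ih =>
      refine hcl _ (ind_BM (MeasurableSet.iUnion hf) 1) fun ε hε => ?_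
      have hlim : Tendsto (fun n : ℕ => (ν.prod μ) (⋃ i, f i \ ⋃ i ∈ Finset.range n, f i)) atTop
          (𝓝 0) := by
        have h1 : Antitone fun n : ℕ => (⋃ i, f i) \ ⋃ i ∈ Finset.range n, f i := by
          intro a b hab
          refine Set.sdiff_subset_sdiff_right ?_
          exact Set.biUnion_subset_biUnion_left fun i hi =>
            Finset.mem_range.2 ((Finset.mem_range.1 hi).trans_le hab)
        have h2 : ⋂ n : ℕ, ((⋃ i, f i) \ ⋃ i ∈ Finset.range n, f i) = ∅ := by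
          rw [Set.eq_empty_iff_forall_notMem]
          intro z hz
          rw [Set.mem_iInter] at hz
          obtain ⟨i, hi⟩ := Set.mem_iUnion.1 (hz 0).1
          exact (hz (i + 1)).2 (Set.mem_biUnion (Finset.mem_coe.2 (Finset.mem_range.2
            (Nat.lt_succ_self i))) hi)
        have h3 := tendsto_measure_iInter_atTop (μ := ν.prod μ)
          (s := fun n : ℕ => (⋃ i, f i) \ ⋃ i ∈ Finset.range n, f i)
          (fun n => ((MeasurableSet.iUnion hf).diff (Finset.measurableSet_biUnion _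
            fun i _ => hf i)).nullMeasurableSet) h1 ⟨0, measure_ne_top _ _⟩
        rw [h2, measure_empty] at h3
        simp_rw [Set.iUnion_sdiff] at h3
        exact h3
      have hlim' : ∀ᶠ n : ℕ in atTop, (ν.prod μ) (⋃ i, f i \ ⋃ i ∈ Finset.range n, f i) <
          ENNReal.ofReal ε := (tendsto_order.1 hlim).2 _ (ENNReal.ofReal_pos.2 hε)
      obtain ⟨n, hn⟩ := hlim'.exists
      have hfin : ∀ n : ℕ, (⋃ i ∈ Finset.range n, f i).indicator (fun _ => (1 : ℂ)) ∈ 𝒞 := by
        intro n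
        have e : (⋃ i ∈ Finset.range n, f i).indicator (fun _ => (1 : ℂ)) =
            ∑ i ∈ Finset.range n, (f i).indicator fun _ => (1 : ℂ) := by
          funext z
          rw [Finset.indicator_biUnion, Finset.sum_apply]
          exact fun i _ j _ hij => hd hij
        rw [e]
        have h0 : (0 : Y × Z → ℂ) ∈ 𝒞 :=
          ⟨⟨measurable_const, 0, fun _ => by simp⟩, fun ε hε => ⟨0, zero_mem _, by
            simp [hε.le]⟩⟩
        induction n with
        | zero => simpa using h0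
        | succ n ihn =>
          rw [Finset.sum_range_succ]
          refine hadd _ _ (ihn ?_) (ih n)
          funext z
          rw [Finset.indicator_biUnion, Finset.sum_apply]
          exact fun i _ j _ hij => hd hij
      refine ⟨_, hfin n, ?_⟩
      have e2 : ∀ z, ‖(⋃ i, f i).indicator (fun _ => (1 : ℂ)) z -
          (⋃ i ∈ Finset.range n, f i).indicator (fun _ => (1 : ℂ)) z‖ =
          (⋃ i, f i \ ⋃ i ∈ Finset.range n, f i).indicator (fun _ => (1 : ℝ)) z := by
        intro z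
        rw [← Set.iUnion_sdiff]
        by_cases h1 : z ∈ ⋃ i ∈ Finset.range n, f i
        · have h2 : z ∈ ⋃ i, f i := by
            obtain ⟨i, _, hi⟩ := Set.mem_iUnion₂.1 h1
            exact Set.mem_iUnion.2 ⟨i, hi⟩
          rw [Set.indicator_of_mem h1, Set.indicator_of_mem h2, Set.indicator_of_notMem]
          · simp
          · exact fun h => h.2 h1
        · by_cases h2 : z ∈ ⋃ i, f i
          · rw [Set.indicator_of_notMem h1, Set.indicator_of_mem h2, Set.indicator_of_mem]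
            · simp
            · exact ⟨h2, h1⟩
          · rw [Set.indicator_of_notMem h1, Set.indicator_of_notMem h2, Set.indicator_of_notMem]
            · simp
            · exact fun h => h2 h.1
      simp_rw [e2]
      have hms : MeasurableSet (⋃ i, f i \ ⋃ i ∈ Finset.range n, f i) :=
        MeasurableSet.iUnion fun i => (hf i).diff (Finset.measurableSet_biUnion _ fun i _ => hf i)
      rw [integral_indicator_const _ hms, smul_eq_mul, mul_one, measureReal_def]
      exact ENNReal.toReal_le_of_le_ofReal hε.le hn.le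
  have hmem : MemLp f 1 (ν.prod μ) := memLp_one_iff_integrable.2 (BM.int hf)
  have hconv : ∀ f p : Y × Z → ℂ, BM f → p ∈ Tn Y Z →
      eLpNorm (fun z => f z - p z) 1 (ν.prod μ) =
        ENNReal.ofReal (∫ z, ‖f z - p z‖ ∂(ν.prod μ)) := by
    intro f p hf hp
    rw [eLpNorm_one_eq_lintegral_enorm]
    exact (ofReal_integral_norm_eq_lintegral_enorm
      ((BM.int hf).sub (BM.int (BM_Tn hp)))).symm
  obtain ⟨p, hp1, hp2⟩ := hmem.induction_dense ENNReal.one_ne_top (fun p => p ∈ Tn Y Z)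
    (fun c s hs _ ε hε => by
      obtain ⟨r, hr0, hr⟩ : ∃ r : ℝ, 0 < r ∧ ENNReal.ofReal r ≤ ε := by
        rcases eq_or_ne ε ⊤ with rfl | h
        · exact ⟨1, one_pos, le_top⟩
        · exact ⟨ε.toReal, ENNReal.toReal_pos hε h, ENNReal.ofReal_toReal_le⟩
      obtain ⟨_, h2⟩ := hsmul c _ (hind s hs)
      obtain ⟨p, hp, hpi⟩ := h2 r hr0
      refine ⟨p, ?_, hp⟩
      have e1 : (c • s.indicator fun _ => (1 : ℂ)) = s.indicator fun _ => c := by
        funext z
        by_cases hz : z ∈ s <;> simp [hz]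
      rw [e1] at hpi
      have h3 := hconv _ p (ind_BM hs c) hp
      have h4 : eLpNorm (p - s.indicator fun _ => c) 1 (ν.prod μ) =
          eLpNorm (fun z => (s.indicator (fun _ => c)) z - p z) 1 (ν.prod μ) := by
        rw [← eLpNorm_neg]
        congr 1
        funext z
        simp
      rw [h4, h3]
      exact (ENNReal.ofReal_le_ofReal hpi).trans hr)
    (fun f g hf hg => add_mem hf hg) (fun f hf => (BM.int (BM_Tn hf)).1)
    (ε := ENNReal.ofReal ε) (by simpa using hε)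
  refine ⟨p, hp2, ?_⟩
  have h5 := hconv f p hf hp2
  have h6 : ENNReal.ofReal (∫ z, ‖f z - p z‖ ∂(ν.prod μ)) ≤ ENNReal.ofReal ε := by
    rw [← h5]
    exact hp1
  exact (ENNReal.ofReal_le_ofReal_iff hε.le).1 h6

end

end Pool.Agent.H71.IE
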