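import Pool.Agent.H71.IE.Hat
import Pool.Agent.H71.IE.Den
import Pool.Agent.H71.NU.Fin

set_option autoImplicit false
set_option linter.unusedSectionVars false

/-!
# Assembly
-/

namespace Pool.Agent.H71.IE

open Filter Topology MeasureTheory
open scoped ENNReal
open Pool.Agent.H71.WW (av avr BM Bd Cv Cv_closed SingleGood)

noncomputable section

theorem prod_diff {ι : Type*} (s : Finset ι) {a b : ι → ℂ} {C : ℝ} (hC : 1 ≤ C)
    (ha : ∀ i, ‖a i‖ ≤ C) (hb : ∀ i, ‖b i‖ ≤ C) :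
    ‖∏ i ∈ s, a i - ∏ i ∈ s, b i‖ ≤ C ^ s.card * ∑ i ∈ s, ‖a i - b i‖ := by
  classical
  have hC0 : 0 ≤ C := by linarith
  induction s using Finset.induction_on with
  | empty => simp
  | insert x s hx ih =>
    rw [Finset.prod_insert hx, Finset.prod_insert hx, Finset.sum_insert hx,
      Finset.card_insert_of_notMem hx]
    have e : a x * ∏ i ∈ s, a i - b x * ∏ i ∈ s, b i =
        (a x - b x) * ∏ i ∈ s, a i + b x * (∏ i ∈ s, a i - ∏ i ∈ s, b i) := by ring
    rw [e]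
    refine (norm_add_le _ _).trans ?_
    rw [norm_mul, norm_mul, norm_prod]
    have h1 : ∏ i ∈ s, ‖a i‖ ≤ C ^ s.card := by
      refine (Finset.prod_le_prod (fun i _ => norm_nonneg _) fun i _ => ha i).trans ?_
      rw [Finset.prod_const]
    have h2 : 0 ≤ ∑ i ∈ s, ‖a i - b i‖ := Finset.sum_nonneg fun i _ => norm_nonneg _
    have h3 : ‖a x - b x‖ * ∏ i ∈ s, ‖a i‖ ≤ C ^ (s.card + 1) * ‖a x - b x‖ := by
      rw [mul_comm]
      refine mul_le_mul_of_nonneg_right (h1.trans ?_) (norm_nonneg _)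
      exact pow_le_pow_right₀ hC (Nat.le_succ _)
    have h4 : ‖b x‖ * ‖∏ i ∈ s, a i - ∏ i ∈ s, b i‖ ≤
        C ^ (s.card + 1) * ∑ i ∈ s, ‖a i - b i‖ := by
      rw [pow_succ', mul_assoc]
      exact mul_le_mul (hb x) ih (norm_nonneg _) hC0
    rw [mul_add]
    exact add_le_add h3 h4

variable {Y Z : Type} [MeasurableSpace Y] {ν : Measure Y} [IsProbabilityMeasure ν]
  [PseudoMetricSpace Z] [MeasurableSpace Z] [BorelSpace Z] {ρ : Measure Z} [IsProbabilityMeasure ρ]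
  [ρ.IsOpenPosMeasure]
  {m K : ℕ} {κ : Fin m → Fin K} {S : Fin K → Equiv.Perm Y} {T : Fin m → Equiv.Perm (Y × Z)}

/-- uniform continuity in the fibre direction -/
def FU (F : Y × Z → ℂ) : Prop :=
  ∀ ε : ℝ, 0 < ε → ∃ δ : ℝ, 0 < δ ∧ ∀ y z z', dist z z' < δ → ‖F (y, z) - F (y, z')‖ ≤ ε

/-- equicontinuity in the fibre over `y` -/
def EC (T : Fin m → Equiv.Perm (Y × Z)) (y : Y) : Prop :=
  ∀ j, ∀ ε : ℝ, 0 < ε → ∃ δ : ℝ, 0 < δ ∧ ∀ (n : ℤ) (z z' : Z), dist z z' < δ →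
    dist ((T j ^ n) (y, z)).2 ((T j ^ n) (y, z')).2 < ε

/-- convergence at every point of almost every fibre -/
theorem fib_all (hS : ∀ k, MeasurePreserving (S k) ν ν)
    (hS' : ∀ k, MeasurePreserving ((S k)⁻¹ : Equiv.Perm Y) ν ν)
    (je : ∀ h : Fin K → Y → ℂ, (∀ i, BM (h i)) → ∀ᵐ y ∂ν,
      Tendsto (fun N => av N fun n => ∏ i, h i ((S i ^ n) y)) atTop (𝓝 (∏ i, ∫ y, h i y ∂ν)))
    (hT : ∀ j p, (T j p).1 = S (κ j) p.1) (hm : ∀ j, Measurable (T j))
    (hm' : ∀ j, Measurable ((T j)⁻¹ : Equiv.Perm (Y × Z)))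
    (hf : ∀ j y, MeasurePreserving (fun z => (T j (y, z)).2) ρ ρ) (heq : ∀ᵐ y ∂ν, EC T y)
    {F : Fin m → Y × Z → ℂ} (hF : ∀ j, BM (F j)) (hU : ∀ j, FU (F j)) :
    ∀ᵐ y ∂ν, ∀ z : Fin m → Z, ∃ L : ℂ, Tendsto (fun N => av N fun n =>
      ∏ j, F j ((T j ^ n) (y, z j))) atTop (𝓝 L) := by
  classical
  have H := hat_sys (ρ := ρ) hS hS' je hT hm hm' hf
  set G : Fin K → Y × (Fin m → Z) → ℂ := fun k p =>
    ∏ j, if κ j = k then F j (p.1, p.2 j) else 1 with hG
  have hGb : ∀ k, BM (G k) := by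
    intro k
    choose C hC using fun j => (hF j).2
    refine ⟨?_, ∏ j, (|C j| + 1), fun p => ?_⟩
    · refine Finset.measurable_fun_prod _ fun j _ => ?_
      by_cases h : κ j = k
      · simp only [if_pos h]
        exact (hF j).1.comp (measurable_fst.prodMk ((measurable_pi_apply j).comp measurable_snd))
      · simp only [if_neg h]
        exact measurable_const
    · rw [hG]
      simp only
      rw [norm_prod]
      refine Finset.prod_le_prod (fun i _ => norm_nonneg _) fun j _ => ?_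
      by_cases h : κ j = k
      · rw [if_pos h]
        refine (hC j _).trans ?_
        linarith [le_abs_self (C j)]
      · rw [if_neg h, norm_one]
        linarith [abs_nonneg (C j)]
  have hv : ∀ (y : Y) (n : ℤ) (w : Fin K → Fin m → Z), vv (hat κ S T hT) G y n w =
      ∏ j, F j ((T j ^ n) (y, w (κ j) j)) := by
    intro y n w
    unfold vv
    rw [hG]
    simp only
    rw [Finset.prod_comm]
    refine Finset.prod_congr rfl fun j _ => ?_
    rw [Finset.prod_ite_eq Finset.univ (κ j), if_pos (Finset.mem_univ _), hat_z]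
    show F j ((S (κ j) ^ n) y, if κ j = κ j then ((T j ^ n) (y, w (κ j) j)).2 else
      w (κ j) j) = _
    rw [if_pos rfl]
    congr 1
    refine Prod.ext ?_ rfl
    rw [base_z hT]
  obtain ⟨C, hC1, hC⟩ : ∃ C : ℝ, 1 ≤ C ∧ ∀ i p, ‖F i p‖ ≤ C := by
    choose D hD using fun i => (hF i).2
    have h0 : 0 ≤ ∑ i, |D i| := Finset.sum_nonneg fun i _ => abs_nonneg (D i)
    refine ⟨∑ i, |D i| + 1, by linarith, fun i p => (hD i p).trans ?_⟩
    have h1 := Finset.single_le_sum (f := fun i => |D i|) (fun i _ => abs_nonneg (D i))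
      (Finset.mem_univ i)
    have h2 := le_abs_self (D i)
    linarith
  filter_upwards [PP'_all H hGb, heq] with y hy hE z
  have h1 := at_point H hGb hy (w := fun _ => z) (fun ε hε => by
    set η : ℝ := ε / (C ^ m * m + 1) with hη
    have hη0 : 0 < η := by positivity
    have hd : ∀ j, ∃ δ : ℝ, 0 < δ ∧ ∀ (n : ℤ) (z z' : Z), dist z z' < δ →
        ‖F j ((T j ^ n) (y, z)) - F j ((T j ^ n) (y, z'))‖ ≤ η := by
      intro j
      obtain ⟨δ₁, h1, h2⟩ := hU j η hη0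
      obtain ⟨δ, h3, h4⟩ := hE j δ₁ h1
      refine ⟨δ, h3, fun n z z' hz => ?_⟩
      have e : ∀ z, (T j ^ n) (y, z) = ((S (κ j) ^ n) y, ((T j ^ n) (y, z)).2) := fun z =>
        Prod.ext (base_z hT j n (y, z)) rfl
      rw [e z, e z']
      exact h2 _ _ _ (h4 n z z' hz)
    choose δ hδ0 hδ using hd
    refine ⟨Set.pi Set.univ fun _ => Set.pi Set.univ fun j => Metric.ball (z j) (δ j), ?_, ?_, ?_⟩
    · exact MeasurableSet.univ_pi fun k => MeasurableSet.univ_pi fun j => Metric.isOpen_ball.measurableSet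
    · rw [Measure.pi_pi]
      simp_rw [Measure.pi_pi]
      rw [pos_iff_ne_zero, Finset.prod_ne_zero_iff]
      intro k _
      rw [Finset.prod_ne_zero_iff]
      intro j _
      exact (Metric.measure_ball_pos ρ (z j) (hδ0 j)).ne'
    · intro n w' hw'
      rw [hv, hv]
      have h5 := prod_diff Finset.univ (a := fun j => F j ((T j ^ n) (y, w' (κ j) j)))
        (b := fun j => F j ((T j ^ n) (y, z j))) hC1 (fun j => hC j _) (fun j => hC j _)
      refine h5.trans ?_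
      rw [Finset.card_univ, Fintype.card_fin]
      have h6 : ∑ j : Fin m, ‖F j ((T j ^ n) (y, w' (κ j) j)) - F j ((T j ^ n) (y, z j))‖ ≤
          ∑ _j : Fin m, η := by
        refine Finset.sum_le_sum fun j _ => hδ j n _ _ ?_
        have h7 := (Set.mem_univ_pi.1 (Set.mem_univ_pi.1 hw' (κ j))) j
        exact h7
      rw [Finset.sum_const, Finset.card_univ, Fintype.card_fin, nsmul_eq_mul] at h6
      refine (mul_le_mul_of_nonneg_left h6 (by positivity)).trans ?_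
      rw [← mul_assoc, hη, mul_div_assoc', div_le_iff₀ (by positivity)]
      nlinarith)
  obtain ⟨L, hL⟩ := h1
  refine ⟨L, hL.congr fun N => ?_⟩
  congr 1
  funext n
  exact hv y n _

variable [CompactSpace Z]

theorem FU_Tn {f : Y × Z → ℂ} (hf : f ∈ Tn Y Z) : FU f := by
  refine Submodule.span_induction (p := fun f _ => FU f) ?_ ?_ ?_ ?_ hf
  · rintro _ ⟨h, u, ⟨-, c, hc⟩, hu, rfl⟩ ε hε
    have hu' := CompactSpace.uniformContinuous_of_continuous hu
    obtain ⟨δ, hδ, h1⟩ := Metric.uniformContinuous_iff.1 hu' (ε / (|c| + 1)) (by positivity)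
    refine ⟨δ, hδ, fun y z z' hz => ?_⟩
    have h2 := h1 hz
    rw [dist_eq_norm] at h2
    show ‖h y * u z - h y * u z'‖ ≤ ε
    rw [← mul_sub, norm_mul]
    calc ‖h y‖ * ‖u z - u z'‖ ≤ (|c| + 1) * (ε / (|c| + 1)) :=
          mul_le_mul ((hc y).trans (by linarith [le_abs_self c])) h2.le (norm_nonneg _)
            (by positivity)
      _ = ε := by field_simp
  · exact fun ε hε => ⟨1, one_pos, fun y z z' _ => by simp [hε.le]⟩
  · intro f g _ _ hf hg ε hε
    obtain ⟨δ₁, h1, h2⟩ := hf (ε / 2) (by positivity)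
    obtain ⟨δ₂, h3, h4⟩ := hg (ε / 2) (by positivity)
    refine ⟨min δ₁ δ₂, lt_min h1 h3, fun y z z' hz => ?_⟩
    have h5 := h2 y z z' (hz.trans_le (min_le_left _ _))
    have h6 := h4 y z z' (hz.trans_le (min_le_right _ _))
    simp only [Pi.add_apply]
    rw [add_sub_add_comm]
    exact (norm_add_le _ _).trans (by linarith)
  · intro c f _ hf ε hε
    obtain ⟨δ, h1, h2⟩ := hf (ε / (‖c‖ + 1)) (by positivity)
    refine ⟨δ, h1, fun y z z' hz => ?_⟩
    simp only [Pi.smul_apply]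
    rw [← smul_sub, norm_smul]
    calc ‖c‖ * ‖f (y, z) - f (y, z')‖ ≤ (‖c‖ + 1) * (ε / (‖c‖ + 1)) :=
          mul_le_mul (by linarith) (h2 y z z' hz) (norm_nonneg _) (by positivity)
      _ = ε := by field_simp

theorem BM.Bd' {Ω : Type} [MeasurableSpace Ω] {f : Ω → ℂ} (h : BM f) : Bd f := h.2

/-- general functions -/
theorem linf {P : (Fin m → Y × Z → ℂ) → Prop} (hP : P = Cv (ν.prod ρ) fun j n p => (T j ^ n) p)
    (hmp : ∀ j, MeasurePreserving (T j) (ν.prod ρ) (ν.prod ρ))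
    (hmp' : ∀ j, MeasurePreserving ((T j)⁻¹ : Equiv.Perm (Y × Z)) (ν.prod ρ) (ν.prod ρ))
    (h0 : ∀ F : Fin m → Y × Z → ℂ, (∀ j, F j ∈ Tn Y Z) → P F) {f : Fin m → Y × Z → ℂ}
    (hf : ∀ j, MemLp (f j) ∞ (ν.prod ρ)) : P f := by
  subst hP
  have mp : ∀ j (n : ℤ), MeasurePreserving (fun p => (T j ^ n) p) (ν.prod ρ) (ν.prod ρ) :=
    fun j n => zmeas (hmp j) (hmp' j) n
  have hsg : ∀ j, SingleGood (ν.prod ρ) (fun (n : ℤ) (p : Y × Z) => (T j ^ n) p) := by
    intro j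
    have h1 := NU.good_lin (P := ν.prod ρ) (a := T j) (b := 1) (hmp j) (hmp' j)
      (MeasurePreserving.id _)
    simp only [mul_one] at h1
    exact h1
  have key : ∀ F : Fin m → Y × Z → ℂ, (∀ j, BM (F j)) →
      Cv (ν.prod ρ) (fun j n p => (T j ^ n) p) F := by
    intro F hF
    refine ext2 (P := Cv (ν.prod ρ) fun j n p => (T j ^ n) p)
      (𝒬 := fun _ => (Tn Y Z : Set _)) (𝒜 := fun _ => {f | BM f}) ?_ h0 hF
    intro f hf k hQ h hh
    have hfb : ∀ j, Bd (f j) := by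
      intro j
      rcases hf j with h1 | h1
      · exact (BM_Tn h1).2
      · exact h1.2
    have hh' : BM h := hh
    have h3 : ∀ ε : ℝ, 0 < ε → ∃ f' : Y × Z → ℂ, BM f' ∧
        ∫ x, ‖h x - f' x‖ ∂(ν.prod ρ) ≤ ε ∧
        Cv (ν.prod ρ) (fun j (n : ℤ) p => (T j ^ n) p) (Function.update f k f') := by
      intro ε hε
      obtain ⟨p, hp, hpi⟩ := Tn_dense (μ := ρ) (ν := ν) hh' hε
      exact ⟨p, BM_Tn hp, hpi, hQ p hp⟩
    exact Cv_closed (g := fun j (n : ℤ) p => (T j ^ n) p) (F := f) (j := k) hfb (mp k) (hsg k) hh' h3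
  choose F hFb hfF using fun j => NU.BM_of_memLp (hf j)
  have h1 : ∀ᵐ z ∂(ν.prod ρ), ∀ (n : ℤ) j, f j ((T j ^ n) z) = F j ((T j ^ n) z) := by
    rw [ae_all_iff]
    intro n
    rw [ae_all_iff]
    intro j
    exact (mp j n).quasiMeasurePreserving.ae (hfF j)
  filter_upwards [key F hFb, h1] with z hz hz'
  obtain ⟨L, hL⟩ := hz
  refine ⟨L, hL.congr fun N => ?_⟩
  congr 1
  funext n
  exact Finset.prod_congr rfl fun j _ => (hz' n j).symm

theorem T_mp (hS : ∀ k, MeasurePreserving (S k) ν ν)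
    (hT : ∀ j p, (T j p).1 = S (κ j) p.1) (hm : ∀ j, Measurable (T j))
    (hf : ∀ j y, MeasurePreserving (fun z => (T j (y, z)).2) ρ ρ) (j : Fin m) :
    MeasurePreserving (T j) (ν.prod ρ) (ν.prod ρ) := by
  have h1 := MeasurePreserving.skew_product (g := fun (y : Y) (z : Z) => (T j (y, z)).2)
    (hS (κ j)) ((hm j).snd) (Eventually.of_forall fun y => (hf j y).map_eq)
  refine Eq.mp (congrArg (fun f => MeasurePreserving f (ν.prod ρ) (ν.prod ρ)) ?_) h1
  funext p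
  exact Prod.ext (hT j p).symm rfl

theorem T_mp' (hS' : ∀ k, MeasurePreserving ((S k)⁻¹ : Equiv.Perm Y) ν ν)
    (hT : ∀ j p, (T j p).1 = S (κ j) p.1) 
    (hm' : ∀ j, Measurable ((T j)⁻¹ : Equiv.Perm (Y × Z)))
    (hf : ∀ j y, MeasurePreserving (fun z => (T j (y, z)).2) ρ ρ) (j : Fin m) :
    MeasurePreserving ((T j)⁻¹ : Equiv.Perm (Y × Z)) (ν.prod ρ) (ν.prod ρ) := by
  have h1 := MeasurePreserving.skew_product (g := fun (y : Y) (z : Z) => ((T j)⁻¹ (y, z)).2)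
    (hS' (κ j)) ((hm' j).snd) (Eventually.of_forall fun y => (fib_inv hT hm' hf j y).map_eq)
  refine Eq.mp (congrArg (fun f => MeasurePreserving f (ν.prod ρ) (ν.prod ρ)) ?_) h1
  funext p
  exact Prod.ext (base_inv hT j p).symm rfl

/-- **Main theorem** -/
theorem main (hS : ∀ k, MeasurePreserving (S k) ν ν)
    (hS' : ∀ k, MeasurePreserving ((S k)⁻¹ : Equiv.Perm Y) ν ν)
    (je : ∀ h : Fin K → Y → ℂ, (∀ i, BM (h i)) → ∀ᵐ y ∂ν,
      Tendsto (fun N => av N fun n => ∏ i, h i ((S i ^ n) y)) atTop (𝓝 (∏ i, ∫ y, h i y ∂ν)))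
    (hT : ∀ j p, (T j p).1 = S (κ j) p.1) (hm : ∀ j, Measurable (T j))
    (hm' : ∀ j, Measurable ((T j)⁻¹ : Equiv.Perm (Y × Z)))
    (hf : ∀ j y, MeasurePreserving (fun z => (T j (y, z)).2) ρ ρ) (heq : ∀ᵐ y ∂ν, EC T y)
    {f : Fin m → Y × Z → ℂ} (hF : ∀ j, MemLp (f j) ∞ (ν.prod ρ)) :
    Cv (ν.prod ρ) (fun j n p => (T j ^ n) p) f := by
  refine linf rfl (T_mp hS hT hm hf) (T_mp' hS' hT hm' hf) (fun F hF => ?_) hF
  have h1 := fib_all hS hS' je hT hm hm' hf heq (fun j => BM_Tn (hF j)) fun j => FU_Tn (hF j)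
  have h2 := (Measure.quasiMeasurePreserving_fst (μ := ν) (ν := ρ)).ae h1
  filter_upwards [h2] with p hp
  exact hp fun _ => p.2

end

end Pool.Agent.H71.IE
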