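import Pool.Agent.H71.WW.Spec
import Pool.Agent.H71.WW.Herg

set_option autoImplicit false

/-!
# Wiener's lemma: the mean square of the Fourier coefficients
-/

namespace Pool.Agent.H71.IE

open Filter Topology MeasureTheory
open scoped ComplexConjugate
open Pool.Agent.H71.WW (TC geom_zero fourier_one_inj integrable_cont)

noncomputable section

/-- the averaged characters -/
def Dk (Q : ℕ) (u : TC) : ℂ := (Q : ℂ)⁻¹ * ∑ k ∈ Finset.range Q, fourier 1 u ^ k

theorem fourier_nat (k : ℕ) (u : TC) : (fourier (k : ℤ) u : ℂ) = fourier 1 u ^ k := by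
  rw [fourier_apply, fourier_one]
  simp only [natCast_zsmul, AddCircle.toCircle_nsmul, Circle.coe_pow]

theorem fourier_sub' (n : ℤ) (s t : TC) :
    (fourier n (s - t) : ℂ) = fourier n s * fourier (-n) t := by
  rw [fourier_apply, fourier_apply, fourier_apply, smul_sub, sub_eq_add_neg,
    AddCircle.toCircle_add, Circle.coe_mul, neg_smul]

theorem norm_f1 (u : TC) : ‖(fourier 1 u : ℂ)‖ = 1 := by
  rw [fourier_one]
  exact Circle.norm_coe _

theorem Dk_le (Q : ℕ) (u : TC) : ‖Dk Q u‖ ≤ 1 := by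
  unfold Dk
  rw [norm_mul, norm_inv, Complex.norm_natCast]
  rcases Nat.eq_zero_or_pos Q with rfl | hQ
  · simp
  have hQ0 : (0 : ℝ) < Q := by exact_mod_cast hQ
  rw [inv_mul_le_iff₀ hQ0, mul_one]
  refine (norm_sum_le _ _).trans ?_
  simp [norm_pow, norm_f1]

theorem Dk_cont (Q : ℕ) : Continuous (Dk Q) := by
  unfold Dk
  exact continuous_const.mul (continuous_finsetSum _ fun k _ => (fourier 1).continuous.pow k)

theorem Dk_lim (u : TC) : Tendsto (fun Q => Dk Q u) atTop (𝓝 (if u = 0 then 1 else 0)) := by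
  split_ifs with h
  · subst h
    refine tendsto_const_nhds.congr' ?_
    filter_upwards [eventually_ge_atTop 1] with Q hQ
    have hQc : (Q : ℂ) ≠ 0 := by exact_mod_cast (by omega : Q ≠ 0)
    unfold Dk
    have e : (fourier 1 (0 : TC) : ℂ) = 1 := by simp
    rw [e]
    simp [hQc]
  · refine geom_zero (norm_f1 u) fun h1 => h ?_
    have e : (fourier 1 (0 : TC) : ℂ) = 1 := by simp
    exact fourier_one_inj (h1.trans e.symm)

variable {σ : Measure TC} [IsProbabilityMeasure σ]

/-- an atom as a limit of averages -/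
theorem atom_lim (s : TC) :
    Tendsto (fun Q : ℕ => (Q : ℂ)⁻¹ * ∑ k ∈ Finset.range Q,
      fourier (-(k : ℤ)) s * ∫ t, fourier (k : ℤ) t ∂σ) atTop (𝓝 (σ.real {s} : ℂ)) := by
  have h1 : Tendsto (fun Q => ∫ t, Dk Q (t - s) ∂σ) atTop
      (𝓝 (∫ t, (if t - s = 0 then (1 : ℂ) else 0) ∂σ)) := by
    refine tendsto_integral_of_dominated_convergence (fun _ => 1) ?_ (integrable_const _) ?_ ?_
    · exact fun Q => ((Dk_cont Q).comp (continuous_id.sub continuous_const)).aestronglyMeasurable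
    · exact fun Q => Eventually.of_forall fun t => Dk_le Q _
    · exact Eventually.of_forall fun t => Dk_lim _
  have h2 : ∫ t, (if t - s = 0 then (1 : ℂ) else 0) ∂σ = (σ.real {s} : ℂ) := by
    have e : (fun t : TC => (if t - s = 0 then (1 : ℂ) else 0)) =
        ({s} : Set TC).indicator fun _ => (1 : ℂ) := by
      funext t
      by_cases h : t = s
      · simp [h]
      · rw [if_neg (sub_ne_zero.2 h), Set.indicator_of_notMem (by simpa using h)]
    rw [e, integral_indicator (measurableSet_singleton s), setIntegral_const]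
    simp
  rw [h2] at h1
  refine h1.congr fun Q => ?_
  unfold Dk
  have e : ∀ k : ℕ, ∀ t : TC, (fourier 1 (t - s) : ℂ) ^ k =
      fourier (-(k : ℤ)) s * fourier (k : ℤ) t := by
    intro k t
    rw [← fourier_nat, fourier_sub', mul_comm]
  simp_rw [e]
  rw [integral_const_mul, integral_finsetSum (Finset.range Q)
    (f := fun (k : ℕ) (t : TC) => (fourier (-(k : ℤ)) s : ℂ) * fourier (k : ℤ) t)
    fun k _ => (integrable_cont σ (fourier (k : ℤ))).const_mul _]
  congr 1
  refine Finset.sum_congr rfl fun k _ => ?_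
  rw [integral_const_mul]

/-- the mean square of the Fourier coefficients -/
theorem mean_sq {ε : ℝ} (hσ : ∀ t, σ.real {t} ≤ ε) {η : ℝ} (hη : 0 < η) :
    ∀ᶠ Q : ℕ in atTop, ((Q : ℝ)⁻¹ ^ 2 * ∑ k ∈ Finset.range Q, ∑ l ∈ Finset.range Q,
      ‖∫ t, fourier ((k : ℤ) - l) t ∂σ‖ ^ 2) ≤ ε + η := by
  set τ := σ.prod σ with hτ
  have h1 : Tendsto (fun Q => ∫ p : TC × TC, Dk Q (p.1 - p.2) * conj (Dk Q (p.1 - p.2)) ∂τ) atTop
      (𝓝 (∫ p : TC × TC, (if p.1 - p.2 = 0 then (1 : ℂ) else 0) *
        conj (if p.1 - p.2 = 0 then (1 : ℂ) else 0) ∂τ)) := by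
    refine tendsto_integral_of_dominated_convergence (fun _ => 1) ?_ (integrable_const _) ?_ ?_
    · intro Q
      have hc : Continuous fun p : TC × TC => Dk Q (p.1 - p.2) :=
        (Dk_cont Q).comp (continuous_fst.sub continuous_snd)
      exact (hc.mul (Complex.continuous_conj.comp hc)).aestronglyMeasurable
    · refine fun Q => Eventually.of_forall fun p => ?_
      rw [norm_mul, RCLike.norm_conj]
      exact mul_le_one₀ (Dk_le _ _) (norm_nonneg _) (Dk_le _ _)
    · refine Eventually.of_forall fun p => ?_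
      exact (Dk_lim _).mul ((Complex.continuous_conj.tendsto _).comp (Dk_lim _))
  have hdm : MeasurableSet {p : TC × TC | p.1 = p.2} := measurableSet_diagonal
  have h2 : ∫ p : TC × TC, (if p.1 - p.2 = 0 then (1 : ℂ) else 0) *
        conj (if p.1 - p.2 = 0 then (1 : ℂ) else 0) ∂τ = (τ.real {p | p.1 = p.2} : ℂ) := by
    have e : (fun p : TC × TC => (if p.1 - p.2 = 0 then (1 : ℂ) else 0) *
        conj (if p.1 - p.2 = 0 then (1 : ℂ) else 0)) =
        ({p : TC × TC | p.1 = p.2} : Set (TC × TC)).indicator fun _ => (1 : ℂ) := by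
      funext p
      by_cases h : p.1 = p.2
      · rw [if_pos (sub_eq_zero.2 h), Set.indicator_of_mem (by exact h)]
        simp
      · rw [if_neg (sub_ne_zero.2 h), Set.indicator_of_notMem (by exact h)]
        simp
    rw [e, integral_indicator hdm, setIntegral_const]
    simp
  have h3 : τ.real {p | p.1 = p.2} ≤ ε := by
    have e0 : 0 ≤ ε := measureReal_nonneg.trans (hσ 0)
    have e1 : τ {p | p.1 = p.2} = ∫⁻ t, σ {t} ∂σ := by
      rw [hτ, Measure.prod_apply hdm]
      congr 1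
      funext t
      congr 1
      ext s
      simp [eq_comm]
    have e2 : ∫⁻ t, σ {t} ∂σ ≤ ∫⁻ _, ENNReal.ofReal ε ∂σ := by
      refine lintegral_mono fun t => ?_
      rw [← ofReal_measureReal]
      exact ENNReal.ofReal_le_ofReal (hσ t)
    rw [lintegral_const, measure_univ, mul_one] at e2
    rw [measureReal_def, e1]
    exact ENNReal.toReal_le_of_le_ofReal e0 e2
  have h4 : ∀ Q, ∫ p : TC × TC, Dk Q (p.1 - p.2) * conj (Dk Q (p.1 - p.2)) ∂τ =
      (((Q : ℝ)⁻¹ ^ 2 * ∑ k ∈ Finset.range Q, ∑ l ∈ Finset.range Q,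
        ‖∫ t, fourier ((k : ℤ) - l) t ∂σ‖ ^ 2 : ℝ) : ℂ) := by
    intro Q
    have e : ∀ p : TC × TC, Dk Q (p.1 - p.2) * conj (Dk Q (p.1 - p.2)) =
        (Q : ℂ)⁻¹ ^ 2 * ∑ k ∈ Finset.range Q, ∑ l ∈ Finset.range Q,
          fourier ((k : ℤ) - l) p.1 * fourier (-((k : ℤ) - l)) p.2 := by
      intro p
      unfold Dk
      rw [map_mul, map_inv₀, Complex.conj_natCast, map_sum, mul_mul_mul_comm, ← sq,
        Finset.sum_mul_sum]
      congr 1
      refine Finset.sum_congr rfl fun k _ => Finset.sum_congr rfl fun l _ => ?_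
      rw [← fourier_nat, ← fourier_nat, ← fourier_neg, ← fourier_add, ← sub_eq_add_neg,
        fourier_sub']
    simp_rw [e]
    have hi : ∀ k l : ℕ, Integrable (fun p : TC × TC => (fourier ((k : ℤ) - l) p.1 : ℂ) *
        fourier (-((k : ℤ) - l)) p.2) τ := fun k l =>
      Integrable.mul_prod (integrable_cont σ (fourier ((k : ℤ) - l)))
        (integrable_cont σ (fourier (-((k : ℤ) - l))))
    rw [integral_const_mul, integral_finsetSum _ fun k _ => integrable_finsetSum _ fun l _ => hi k l]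
    simp_rw [integral_finsetSum _ fun l _ => hi _ l]
    push_cast
    congr 1
    refine Finset.sum_congr rfl fun k _ => Finset.sum_congr rfl fun l _ => ?_
    rw [hτ, integral_prod_mul (fun t => (fourier ((k : ℤ) - l) t : ℂ))
      (fun t => (fourier (-((k : ℤ) - l)) t : ℂ))]
    have e5 : ∫ t, (fourier (-((k : ℤ) - l)) t : ℂ) ∂σ =
        conj (∫ t, (fourier ((k : ℤ) - l) t : ℂ) ∂σ) := by
      rw [← integral_conj]
      congr 1
      funext t
      exact fourier_neg
    rw [e5, Complex.mul_conj, Complex.normSq_eq_norm_sq]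
    push_cast
    rfl
  rw [h2] at h1
  simp_rw [h4] at h1
  have h5 := (Complex.continuous_re.tendsto _).comp h1
  simp only [Complex.ofReal_re] at h5
  have h6 : (fun Q : ℕ => (Q : ℝ)⁻¹ ^ 2 * ∑ k ∈ Finset.range Q, ∑ l ∈ Finset.range Q,
      ‖∫ t, fourier ((k : ℤ) - l) t ∂σ‖ ^ 2) = Complex.re ∘ fun Q : ℕ =>
      (((Q : ℝ)⁻¹ ^ 2 * ∑ k ∈ Finset.range Q, ∑ l ∈ Finset.range Q,
        ‖∫ t, fourier ((k : ℤ) - l) t ∂σ‖ ^ 2 : ℝ) : ℂ) := by
    funext Q
    simp only [Function.comp_apply, Complex.ofReal_re]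
  rw [← h6] at h5
  exact h5.eventually_le_const (by linarith)

end

end Pool.Agent.H71.IE
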