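import Pool.Agent.H71.WW.One
import Pool.Agent.H71.WW.Clos
import Pool.Agent.H71.IE.Spc

set_option autoImplicit false

/-!
# Splitting off eigenfunctions
-/

namespace Pool.Agent.H71.IE

open Filter Topology MeasureTheory
open scoped ComplexConjugate ComplexOrder
open Pool.Agent.H71.WW (TC av1 cv cz BM PP sm ct wiener_wintner av1_shift_zero norm_av1_le)

noncomputable section

universe u

variable {Ω : Type u} [MeasurableSpace Ω] {P : Measure Ω} [IsProbabilityMeasure P]
  {T : Equiv.Perm Ω}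

theorem BM.int' {f : Ω → ℂ} (hf : BM f) : Integrable f P := by
  obtain ⟨h1, C, hC⟩ := hf
  exact Integrable.of_bound h1.aestronglyMeasurable C (Eventually.of_forall hC)

theorem BM.mul' {f g : Ω → ℂ} (hf : BM f) (hg : BM g) : BM (fun x => f x * g x) := by
  obtain ⟨h1, c, hc⟩ := hf
  obtain ⟨h2, d, hd⟩ := hg
  refine ⟨h1.mul h2, |c| * |d|, fun x => ?_⟩
  rw [norm_mul]
  exact mul_le_mul ((hc x).trans (le_abs_self c)) ((hd x).trans (le_abs_self d)) (norm_nonneg _)
    (abs_nonneg _)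

theorem BM.conj' {f : Ω → ℂ} (hf : BM f) : BM (fun x => conj (f x)) := by
  obtain ⟨h1, c, hc⟩ := hf
  refine ⟨Complex.continuous_conj.measurable.comp h1, c, fun x => ?_⟩
  rw [RCLike.norm_conj]
  exact hc x

theorem BM.sub' {f g : Ω → ℂ} (hf : BM f) (hg : BM g) : BM (f - g) := by
  obtain ⟨h1, c, hc⟩ := hf
  obtain ⟨h2, d, hd⟩ := hg
  exact ⟨h1.sub h2, c + d, fun x => (norm_sub_le _ _).trans (add_le_add (hc x) (hd x))⟩

theorem BM.cmul {f : Ω → ℂ} (hf : BM f) (c : ℂ) : BM (fun x => c * f x) := by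
  obtain ⟨h1, d, hd⟩ := hf
  refine ⟨h1.const_mul c, ‖c‖ * d, fun x => ?_⟩
  rw [norm_mul]
  exact mul_le_mul_of_nonneg_left (hd x) (norm_nonneg _)

theorem BM.comp' {f : Ω → ℂ} (hf : BM f) {S : Ω → Ω} (hS : Measurable S) : BM (fun x => f (S x)) :=
  ⟨hf.1.comp hS, hf.2.choose, fun x => hf.2.choose_spec (S x)⟩

/-- the twisted orbit -/
def uu (T : Equiv.Perm Ω) (l : Circle) (F : Ω → ℂ) (p : Ω) (n : ℕ) : ℂ :=
  ((l⁻¹ ^ n : Circle) : ℂ) * F (T^[n] p)

open Classical in
/-- the projection to an eigenspace -/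
def EP (T : Equiv.Perm Ω) (l : Circle) (F : Ω → ℂ) (p : Ω) : ℂ :=
  if h : cv (uu T l F p) then h.choose else 0

theorem sm_ct (z : Circle) (n : ℕ) : sm (ct z) n = z ^ n := by
  simp [sm, ct]

theorem uu_cv (hT : MeasurePreserving T P P) {F : Ω → ℂ} (hF : BM F) (l : Circle) :
    ∀ᵐ p ∂P, cv (uu T l F p) := by
  obtain ⟨h1, C, hC⟩ := hF
  filter_upwards [wiener_wintner hT h1 hC] with p hp
  have h2 := hp 2 (sm (ct l⁻¹)) (WW.PP_sm_ct 1 l⁻¹)
  simp_rw [sm_ct] at h2
  exact h2

theorem uu_bd {F : Ω → ℂ} {C : ℝ} (hC : ∀ x, ‖F x‖ ≤ C) (l : Circle) (p : Ω) (n : ℕ) :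
    ‖uu T l F p n‖ ≤ C := by
  unfold uu
  rw [norm_mul, Circle.norm_coe, one_mul]
  exact hC _

theorem EP_lim {F : Ω → ℂ} {l : Circle} {p : Ω} (h : cv (uu T l F p)) :
    Tendsto (av1 (uu T l F p)) atTop (𝓝 (EP T l F p)) := by
  unfold EP
  rw [dif_pos h]
  exact h.choose_spec

theorem EP_bd {F : Ω → ℂ} {C : ℝ} (hC : ∀ x, ‖F x‖ ≤ C) (l : Circle) (p : Ω) :
    ‖EP T l F p‖ ≤ C := by
  have hC0 : 0 ≤ C := (norm_nonneg _).trans (hC p)
  by_cases h : cv (uu T l F p)
  · exact le_of_tendsto' (EP_lim h).norm fun N => norm_av1_le (uu_bd hC l p) N hC0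
  · unfold EP
    rw [dif_neg h, norm_zero]
    exact hC0

theorem uu_shift (F : Ω → ℂ) (l : Circle) (p : Ω) (n : ℕ) :
    uu T l F (T p) n = (l : ℂ) * uu T l F p (n + 1) := by
  unfold uu
  rw [Function.iterate_succ_apply, ← mul_assoc, ← Circle.coe_mul]
  congr 2
  rw [pow_succ]
  rw [mul_comm (l⁻¹ ^ n), ← mul_assoc, mul_inv_cancel, one_mul]

theorem shift_zero {u : ℕ → ℂ} {C : ℝ} (h : ∀ n, ‖u n‖ ≤ C) (k : ℕ) :
    Tendsto (fun N => av1 (fun n => u (n + k)) N - av1 u N) atTop (𝓝 0) := by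
  have hC : 0 ≤ C := (norm_nonneg _).trans (h 0)
  have h1 : ∀ n, ‖((C + 1 : ℝ) : ℂ)⁻¹ * u n‖ ≤ 1 := fun n => by
    rw [norm_mul, norm_inv, Complex.norm_real, Real.norm_of_nonneg (by linarith),
      inv_mul_le_iff₀ (by linarith)]
    linarith [h n]
  have h2 := (av1_shift_zero h1 k).const_mul ((C + 1 : ℝ) : ℂ)
  rw [mul_zero] at h2
  refine h2.congr fun N => ?_
  rw [WW.av1_mul, WW.av1_mul, mul_sub, ← mul_assoc, ← mul_assoc, mul_inv_cancel₀, one_mul, one_mul]
  exact_mod_cast (by linarith : C + 1 ≠ 0)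

theorem EP_eig {F : Ω → ℂ} (hF : BM F) (l : Circle) (p : Ω) :
    EP T l F (T p) = (l : ℂ) * EP T l F p := by
  obtain ⟨-, C, hC⟩ := hF
  have h0 := shift_zero (uu_bd (T := T) hC l p) 1
  have e1 : ∀ N, av1 (uu T l F (T p)) N = (l : ℂ) * av1 (fun n => uu T l F p (n + 1)) N := by
    intro N
    rw [← WW.av1_mul]
    congr 1
    funext n
    exact uu_shift F l p n
  by_cases h : cv (uu T l F p)
  · have h1 : Tendsto (av1 (uu T l F (T p))) atTop (𝓝 ((l : ℂ) * EP T l F p)) := by
      have := (h0.add (EP_lim h)).const_mul (l : ℂ)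
      rw [zero_add] at this
      refine this.congr fun N => ?_
      rw [e1]
      congr 1
      ring
    exact tendsto_nhds_unique (EP_lim ⟨_, h1⟩) h1
  · have h2 : ¬ cv (uu T l F (T p)) := by
      rintro ⟨L, hL⟩
      apply h
      refine ⟨(l : ℂ)⁻¹ * L, ?_⟩
      have hl : (l : ℂ) ≠ 0 := Circle.coe_ne_zero l
      have := (hL.const_mul (l : ℂ)⁻¹).sub h0
      rw [sub_zero] at this
      refine this.congr fun N => ?_
      rw [e1, ← mul_assoc, inv_mul_cancel₀ hl]
      ring
    unfold EP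
    rw [dif_neg h, dif_neg h2, mul_zero]

theorem uu_meas (hT : Measurable T) {F : Ω → ℂ} (hF : Measurable F) (l : Circle) (n : ℕ) :
    Measurable fun p => uu T l F p n :=
  (hF.comp (hT.iterate n)).const_mul _

theorem av_meas (hT : Measurable T) {F : Ω → ℂ} (hF : Measurable F) (l : Circle) (N : ℕ) :
    Measurable fun p => av1 (uu T l F p) N := by
  unfold av1
  exact (Finset.measurable_fun_sum _ fun n _ => uu_meas hT hF l n).const_mul _

theorem EP_BM (hT : Measurable T) {F : Ω → ℂ} (hF : BM F) (l : Circle) : BM (EP T l F) := by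
  obtain ⟨h1, C, hC⟩ := hF
  refine ⟨?_, C, EP_bd hC l⟩
  have hA : MeasurableSet {p | cv (uu T l F p)} :=
    MeasureTheory.StronglyMeasurable.measurableSet_exists_tendsto fun N =>
      (av_meas hT h1 l N).stronglyMeasurable
  refine measurable_of_tendsto_metrizable (f := fun N =>
    {p | cv (uu T l F p)}.indicator fun p => av1 (uu T l F p) N)
    (fun N => (av_meas hT h1 l N).indicator hA) ?_
  rw [tendsto_pi_nhds]
  intro p
  by_cases h : cv (uu T l F p)
  · refine (EP_lim h).congr fun N => ?_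
    rw [Set.indicator_of_mem (by exact h)]
  · have e : EP T l F p = 0 := by
      unfold EP
      rw [dif_neg h]
    rw [e]
    refine tendsto_const_nhds.congr fun N => ?_
    rw [Set.indicator_of_notMem (by exact h)]

theorem eig_it {E : Ω → ℂ} {l : Circle} (hE : ∀ p, E (T p) = (l : ℂ) * E p) (n : ℕ) (p : Ω) :
    E (T^[n] p) = (l : ℂ) ^ n * E p := by
  induction n with
  | zero => simp
  | succ n ih => rw [Function.iterate_succ_apply', hE, ih, pow_succ']; ring

theorem mp_int {S : Ω → Ω} (h : MeasurePreserving S P P) {g : Ω → ℂ} (hg : BM g) :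
    ∫ p, g (S p) ∂P = ∫ p, g p ∂P := by
  have := integral_map (μ := P) (φ := S) h.measurable.aemeasurable (f := g)
    hg.1.aestronglyMeasurable
  rw [h.map_eq] at this
  exact this.symm

theorem av1_const (c : ℂ) {N : ℕ} (hN : 1 ≤ N) : av1 (fun _ => c) N = c := by
  have hc : (N : ℂ) ≠ 0 := by exact_mod_cast (by omega : N ≠ 0)
  unfold av1
  rw [Finset.sum_const, Finset.card_range, nsmul_eq_mul, ← mul_assoc, inv_mul_cancel₀ hc, one_mul]

/-- dominated convergence for the twisted averages -/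
theorem int_av_lim (hT : MeasurePreserving T P P) {F G : Ω → ℂ} (hF : BM F) (hG : BM G)
    (l : Circle) :
    Tendsto (fun N => av1 (fun n => ∫ p, G p * conj (uu T l F p n) ∂P) N) atTop
      (𝓝 (∫ p, G p * conj (EP T l F p) ∂P)) := by
  obtain ⟨C, hC⟩ := hF.2
  obtain ⟨D, hD⟩ := hG.2
  have hm : ∀ N, Measurable fun p => G p * conj (av1 (uu T l F p) N) := fun N =>
    hG.1.mul (Complex.continuous_conj.measurable.comp (av_meas hT.measurable hF.1 l N))
  have h1 : Tendsto (fun N => ∫ p, G p * conj (av1 (uu T l F p) N) ∂P) atTop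
      (𝓝 (∫ p, G p * conj (EP T l F p) ∂P)) := by
    refine tendsto_integral_of_dominated_convergence (fun _ => |D| * |C|)
      (fun N => (hm N).aestronglyMeasurable) (integrable_const _) ?_ ?_
    · refine fun N => Eventually.of_forall fun p => ?_
      rw [norm_mul, RCLike.norm_conj]
      refine mul_le_mul ((hD p).trans (le_abs_self D)) ?_ (norm_nonneg _) (abs_nonneg _)
      exact norm_av1_le (fun n => (uu_bd hC l p n).trans (le_abs_self C)) N (abs_nonneg _)
    · filter_upwards [uu_cv hT hF l] with p hp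
      exact ((Complex.continuous_conj.tendsto _).comp (EP_lim hp)).const_mul _
  refine h1.congr fun N => ?_
  have hi : ∀ n : ℕ, Integrable (fun p => G p * conj (uu T l F p n)) P := fun n => by
    refine BM.int' (BM.mul' hG (BM.conj' ⟨uu_meas hT.measurable hF.1 l n, C, fun p =>
      uu_bd hC l p n⟩))
  unfold av1
  rw [← integral_finsetSum _ fun n _ => hi n, ← integral_const_mul]
  congr 1
  funext p
  rw [map_mul, map_inv₀, Complex.conj_natCast, map_sum, mul_left_comm, Finset.mul_sum]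

/-- integration against an eigenfunction -/
theorem inner_EP (hT : MeasurePreserving T P P) {F E : Ω → ℂ} (hF : BM F) (hE : BM E)
    {l : Circle} (he : ∀ p, E (T p) = (l : ℂ) * E p) :
    ∫ p, E p * conj (F p) ∂P = ∫ p, E p * conj (EP T l F p) ∂P := by
  have h1 : ∀ n : ℕ, ∫ p, E p * conj (uu T l F p n) ∂P = ∫ p, E p * conj (F p) ∂P := by
    intro n
    rw [← mp_int (hT.iterate n) (BM.mul' hE (BM.conj' hF))]
    congr 1
    funext p
    rw [eig_it he]
    unfold uu
    rw [map_mul, ← mul_assoc, mul_comm (E p)]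
    congr 2
    rw [← Circle.coe_inv_eq_conj, inv_pow, inv_inv, Circle.coe_pow]
  have h2 := int_av_lim hT hF hE l
  simp_rw [h1] at h2
  refine tendsto_nhds_unique (tendsto_const_nhds.congr' ?_) h2
  filter_upwards [eventually_ge_atTop 1] with N hN
  exact (av1_const _ hN).symm

/-- the square of the norm -/
def sq2 (P : Measure Ω) (F : Ω → ℂ) : ℝ := ∫ p, ‖F p‖ ^ 2 ∂P

theorem sq2_nonneg (F : Ω → ℂ) : 0 ≤ sq2 P F := integral_nonneg fun _ => by positivity

theorem sq2_eq (F : Ω → ℂ) : ((sq2 P F : ℝ) : ℂ) = ∫ p, F p * conj (F p) ∂P := by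
  unfold sq2
  rw [← integral_complex_ofReal]
  congr 1
  funext p
  rw [Complex.mul_conj, Complex.normSq_eq_norm_sq]

/-- Pythagoras -/
theorem sq2_sub (hT : MeasurePreserving T P P) {F : Ω → ℂ} (hF : BM F) (l : Circle) :
    sq2 P (F - EP T l F) = sq2 P F - sq2 P (EP T l F) := by
  have hE := EP_BM hT.measurable hF l
  have h1 := inner_EP hT hF hE (EP_eig hF l)
  have h2 : ∫ p, F p * conj (EP T l F p) ∂P = ∫ p, EP T l F p * conj (EP T l F p) ∂P := by
    have e1 : ∫ p, F p * conj (EP T l F p) ∂P = conj (∫ p, EP T l F p * conj (F p) ∂P) := by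
      rw [← integral_conj]
      congr 1
      funext p
      rw [map_mul, Complex.conj_conj, mul_comm]
    rw [e1, h1, ← sq2_eq, Complex.conj_ofReal]
  have h3 : ((sq2 P (F - EP T l F) : ℝ) : ℂ) = ((sq2 P F - sq2 P (EP T l F) : ℝ) : ℂ) := by
    rw [Complex.ofReal_sub, sq2_eq, sq2_eq, sq2_eq]
    have e : ∀ p, (F - EP T l F) p * conj ((F - EP T l F) p) =
        F p * conj (F p) - F p * conj (EP T l F p) - (EP T l F p * conj (F p) -
          EP T l F p * conj (EP T l F p)) := by
      intro p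
      simp only [Pi.sub_apply, map_sub]
      ring
    simp_rw [e]
    have i1 := BM.int' (P := P) (BM.mul' hF (BM.conj' hF))
    have i2 := BM.int' (P := P) (BM.mul' hF (BM.conj' hE))
    have i3 := BM.int' (P := P) (BM.mul' hE (BM.conj' hF))
    have i4 := BM.int' (P := P) (BM.mul' hE (BM.conj' hE))
    refine (integral_sub (i1.sub i2) (i3.sub i4)).trans ?_
    refine (congrArg₂ (· - ·) (integral_sub i1 i2) (integral_sub i3 i4)).trans ?_
    rw [h1, h2]
    ring
  exact_mod_cast h3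

/-- the eigenfunctions -/
def Eg (T : Equiv.Perm Ω) : Set (Ω → ℂ) :=
  {e | BM e ∧ ∃ l : Circle, ∀ p, e (T p) = (l : ℂ) * e p}

theorem BM_span {e : Ω → ℂ} (h : e ∈ Submodule.span ℂ (Eg T)) : BM e := by
  induction h using Submodule.span_induction with
  | mem f hf => exact hf.1
  | zero => exact ⟨measurable_const, 0, fun x => by simp⟩
  | add f g _ _ ih ih' =>
    obtain ⟨h1, c, hc⟩ := ih
    obtain ⟨h2, d, hd⟩ := ih'
    exact ⟨h1.add h2, c + d, fun x => (norm_add_le _ _).trans (add_le_add (hc x) (hd x))⟩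
  | smul c f _ ih => exact BM.cmul ih c

/-- the greedy algorithm -/
theorem greedy (hT : MeasurePreserving T P P) {ε : ℝ} (hε : 0 < ε) (n : ℕ) :
    ∀ F : Ω → ℂ, BM F → sq2 P F ≤ n * ε →
    ∃ E ∈ Submodule.span ℂ (Eg T), sq2 P (F - E) ≤ sq2 P F ∧
      ∀ l : Circle, sq2 P (EP T l (F - E)) ≤ ε := by
  induction n with
  | zero =>
    intro F hF h
    refine ⟨0, Submodule.zero_mem _, by rw [sub_zero], fun l => ?_⟩
    rw [sub_zero]
    have h1 := sq2_sub hT hF l
    have h2 := sq2_nonneg (P := P) (F - EP T l F)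
    rw [Nat.cast_zero, zero_mul] at h
    linarith
  | succ n ih =>
    intro F hF h
    by_cases hl : ∀ l : Circle, sq2 P (EP T l F) ≤ ε
    · exact ⟨0, Submodule.zero_mem _, by rw [sub_zero], fun l => by rw [sub_zero]; exact hl l⟩
    · push Not at hl
      obtain ⟨l, hl⟩ := hl
      have h1 := sq2_sub hT hF l
      have hE := EP_BM hT.measurable hF l
      obtain ⟨E, hE1, hE2, hE3⟩ := ih (F - EP T l F) (BM.sub' hF hE) (by
        rw [h1]
        push_cast at h
        linarith)
      refine ⟨EP T l F + E, Submodule.add_mem _ (Submodule.subset_span ⟨hE, l, EP_eig hF l⟩) hE1,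
        ?_, ?_⟩
      · rw [← sub_sub]
        refine hE2.trans ?_
        rw [h1]
        linarith [sq2_nonneg (P := P) (EP T l F)]
      · intro l'
        rw [← sub_sub]
        exact hE3 l'

/-- correlations -/
def co (P : Measure Ω) (T : Equiv.Perm Ω) (F : Ω → ℂ) (n : ℤ) : ℂ :=
  ∫ p, F ((T ^ n) p) * conj (F p) ∂P

theorem zmeas (hT : MeasurePreserving T P P) (hT' : MeasurePreserving (T⁻¹ : Equiv.Perm Ω) P P)
    (n : ℤ) : MeasurePreserving ((T ^ n : Equiv.Perm Ω) : Ω → Ω) P P := by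
  rcases n with n | n
  · rw [Int.ofNat_eq_natCast, zpow_natCast, Equiv.Perm.coe_pow]
    exact hT.iterate n
  · rw [zpow_negSucc, ← inv_pow, Equiv.Perm.coe_pow]
    exact hT'.iterate (n + 1)

/-- the correlations of shifted functions -/
theorem co_eq (hT : MeasurePreserving T P P) (hT' : MeasurePreserving (T⁻¹ : Equiv.Perm Ω) P P)
    {F : Ω → ℂ} (hF : BM F) (k l : ℤ) :
    ∫ p, F ((T ^ k) p) * conj (F ((T ^ l) p)) ∂P = co P T F (k - l) := by
  have hm := fun n => zmeas hT hT' n
  have h1 := mp_int (hm l) (g := fun p => F ((T ^ (k - l)) p) * conj (F p))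
    (BM.mul' (BM.comp' hF (hm (k - l)).measurable) (BM.conj' hF))
  unfold co
  rw [← h1]
  congr 1
  funext p
  rw [← Equiv.Perm.mul_apply, ← zpow_add, sub_add_cancel]

theorem co_zero (F : Ω → ℂ) : co P T F 0 = (sq2 P F : ℂ) := by
  rw [sq2_eq]
  rfl

/-- positive definiteness -/
theorem co_pos (hT : MeasurePreserving T P P) (hT' : MeasurePreserving (T⁻¹ : Equiv.Perm Ω) P P)
    {F : Ω → ℂ} (hF : BM F) (N : ℕ) (a : ℕ → ℂ) :
    0 ≤ ∑ j ∈ Finset.range N, ∑ k ∈ Finset.range N, star (a k) * a j * co P T F (j - k) := by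
  have hm := fun n => zmeas hT hT' n
  set G : Ω → ℂ := fun p => ∑ j ∈ Finset.range N, a j * F ((T ^ (j : ℤ)) p) with hG
  have hGm : Measurable G := Finset.measurable_fun_sum _ fun j _ =>
    (hF.1.comp (hm j).measurable).const_mul _
  have h1 : ((∫ p, ‖G p‖ ^ 2 ∂P : ℝ) : ℂ) =
      ∑ j ∈ Finset.range N, ∑ k ∈ Finset.range N, star (a k) * a j * co P T F (j - k) := by
    rw [← integral_complex_ofReal]
    have e : ∀ p, ((‖G p‖ ^ 2 : ℝ) : ℂ) = ∑ j ∈ Finset.range N, ∑ k ∈ Finset.range N,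
        star (a k) * a j * (F ((T ^ (j : ℤ)) p) * conj (F ((T ^ (k : ℤ)) p))) := by
      intro p
      rw [← Complex.normSq_eq_norm_sq, ← Complex.mul_conj, hG]
      simp only
      rw [map_sum, Finset.sum_mul_sum]
      refine Finset.sum_congr rfl fun j _ => Finset.sum_congr rfl fun k _ => ?_
      rw [map_mul]
      simp only [RCLike.star_def]
      ring
    simp_rw [e]
    have hi : ∀ j k : ℕ, Integrable (fun p => star (a k) * a j * (F ((T ^ (j : ℤ)) p) *
        conj (F ((T ^ (k : ℤ)) p)))) P := fun j k =>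
      BM.int' (BM.cmul (BM.mul' (BM.comp' hF (hm j).measurable)
        (BM.conj' (BM.comp' hF (hm k).measurable))) _)
    rw [integral_finsetSum _ fun j _ => integrable_finsetSum _ fun k _ => hi j k]
    refine Finset.sum_congr rfl fun j _ => ?_
    rw [integral_finsetSum _ fun k _ => hi j k]
    refine Finset.sum_congr rfl fun k _ => ?_
    rw [integral_const_mul, co_eq hT hT' hF]
  rw [← h1]
  exact_mod_cast integral_nonneg fun p => by positivity

/-- the averages of the twisted correlations -/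
theorem co_av (hT : MeasurePreserving T P P) {F : Ω → ℂ} (hF : BM F) (l : Circle) :
    Tendsto (fun Q : ℕ => (Q : ℂ)⁻¹ * ∑ k ∈ Finset.range Q, ((l⁻¹ ^ k : Circle) : ℂ) *
      co P T F (k : ℤ)) atTop (𝓝 (sq2 P (EP T l F) : ℂ)) := by
  have hE := EP_BM hT.measurable hF l
  have h1 := int_av_lim hT hF hF l
  have h2 : ∫ p, F p * conj (EP T l F p) ∂P = (sq2 P (EP T l F) : ℂ) := by
    have e1 : ∫ p, F p * conj (EP T l F p) ∂P = conj (∫ p, EP T l F p * conj (F p) ∂P) := by
      rw [← integral_conj]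
      congr 1
      funext p
      rw [map_mul, Complex.conj_conj, mul_comm]
    rw [e1, inner_EP hT hF hE (EP_eig hF l), ← sq2_eq, Complex.conj_ofReal]
  rw [h2] at h1
  have h3 := (Complex.continuous_conj.tendsto _).comp h1
  rw [Complex.conj_ofReal] at h3
  refine h3.congr fun Q => ?_
  simp only [Function.comp_apply]
  unfold av1
  rw [map_mul, map_inv₀, Complex.conj_natCast, map_sum]
  congr 1
  refine Finset.sum_congr rfl fun k _ => ?_
  rw [← integral_conj]
  unfold co
  rw [← integral_const_mul]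
  congr 1
  funext p
  unfold uu
  rw [map_mul, Complex.conj_conj, zpow_natCast, Equiv.Perm.coe_pow]
  ring

/-- **Splitting off eigenfunctions.** -/
theorem decomp (hT : MeasurePreserving T P P) (hT' : MeasurePreserving (T⁻¹ : Equiv.Perm Ω) P P)
    {F : Ω → ℂ} (hF : BM F) {ε : ℝ} (hε : 0 < ε) :
    ∃ E ∈ Submodule.span ℂ (Eg T), ∀ᶠ Q : ℕ in atTop,
      (Q : ℝ)⁻¹ ^ 2 * ∑ k ∈ Finset.range Q, ∑ l ∈ Finset.range Q,
        ‖co P T (F - E) ((k : ℤ) - l)‖ ^ 2 ≤ ε := by
  set s₀ := sq2 P F with hs₀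
  have hs₀' : 0 ≤ s₀ := sq2_nonneg F
  set δ : ℝ := ε / (2 * (s₀ + 1)) with hδ
  have hδ0 : 0 < δ := by positivity
  obtain ⟨n, hn⟩ := exists_nat_ge (s₀ / δ)
  rw [div_le_iff₀ hδ0] at hn
  obtain ⟨E, hE, h1, h2⟩ := greedy hT hδ0 n F hF hn
  refine ⟨E, hE, ?_⟩
  set G := F - E with hG
  have hGb : BM G := BM.sub' hF (BM_span hE)
  set s := sq2 P G with hs
  have hs0 : 0 ≤ s := sq2_nonneg G
  rcases hs0.eq_or_lt with h0 | h0
  · -- the trivial case
    refine Eventually.of_forall fun Q => ?_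
    have e : ∀ n, co P T G n = 0 := by
      intro n
      have e0 : ∀ᵐ p ∂P, G p = 0 := by
        have e1 : ∫ p, ‖G p‖ ^ 2 ∂P = 0 := h0.symm
        have e2 : Integrable (fun p => ‖G p‖ ^ 2) P := by
          obtain ⟨C, hC⟩ := hGb.2
          refine Integrable.of_bound (hGb.1.norm.pow_const 2).aestronglyMeasurable (C ^ 2)
            (Eventually.of_forall fun p => ?_)
          rw [Real.norm_of_nonneg (by positivity)]
          exact pow_le_pow_left₀ (norm_nonneg _) (hC p) 2
        rw [integral_eq_zero_iff_of_nonneg (fun p => by positivity) e2] at e1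
        filter_upwards [e1] with p hp
        simpa using hp
      unfold co
      rw [integral_eq_zero_of_ae]
      filter_upwards [e0] with p hp
      rw [hp]
      simp
    simp [e, hε.le]
  · set c : ℤ → ℂ := fun n => ((s : ℝ) : ℂ)⁻¹ * co P T G n with hc
    have hsc : ((s : ℝ) : ℂ) ≠ 0 := by exact_mod_cast h0.ne'
    obtain ⟨σ, hσ, hσ'⟩ := WW.herglotz (c := c) (by
      rw [hc]
      simp only
      rw [co_zero, inv_mul_cancel₀ hsc]) (by
      intro N a
      have e : ∑ j ∈ Finset.range N, ∑ k ∈ Finset.range N, star (a k) * a j * c (j - k) =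
          ((s⁻¹ : ℝ) : ℂ) * ∑ j ∈ Finset.range N, ∑ k ∈ Finset.range N,
            star (a k) * a j * co P T G (j - k) := by
        rw [Finset.mul_sum]
        refine Finset.sum_congr rfl fun j _ => ?_
        rw [Finset.mul_sum]
        refine Finset.sum_congr rfl fun k _ => ?_
        rw [hc]
        simp only
        push_cast
        ring
      rw [e]
      refine mul_nonneg ?_ (co_pos hT hT' hGb N a)
      exact_mod_cast (inv_nonneg.2 h0.le))
    have hat : ∀ t, σ.real {t} ≤ δ / s := by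
      intro t
      have e1 := atom_lim (σ := σ) t
      simp_rw [hσ'] at e1
      have e2 := (co_av hT hGb (AddCircle.toCircle t)).const_mul (((s : ℝ) : ℂ)⁻¹)
      have e3 : (σ.real {t} : ℂ) = ((s : ℝ) : ℂ)⁻¹ * (sq2 P (EP T (AddCircle.toCircle t) G) : ℂ) := by
        refine tendsto_nhds_unique e1 (e2.congr fun Q => ?_)
        rw [hc]
        simp only
        rw [mul_left_comm, Finset.mul_sum]
        congr 1
        refine Finset.sum_congr rfl fun k _ => ?_
        rw [mul_left_comm, fourier_apply, neg_smul, natCast_zsmul, AddCircle.toCircle_neg,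
          AddCircle.toCircle_nsmul, inv_pow]
      have e4 : σ.real {t} = s⁻¹ * sq2 P (EP T (AddCircle.toCircle t) G) := by
        exact_mod_cast e3
      rw [e4, div_eq_inv_mul]
      exact mul_le_mul_of_nonneg_left (h2 _) (inv_nonneg.2 h0.le)
    set η : ℝ := ε / (2 * s ^ 2) with hη
    have hη0 : 0 < η := by positivity
    filter_upwards [mean_sq hat hη0] with Q hQ
    have e5 : (Q : ℝ)⁻¹ ^ 2 * ∑ k ∈ Finset.range Q, ∑ l ∈ Finset.range Q,
        ‖co P T G ((k : ℤ) - l)‖ ^ 2 = s ^ 2 * ((Q : ℝ)⁻¹ ^ 2 * ∑ k ∈ Finset.range Q,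
          ∑ l ∈ Finset.range Q, ‖∫ t, fourier ((k : ℤ) - l) t ∂σ‖ ^ 2) := by
      rw [mul_left_comm]
      congr 1
      rw [Finset.mul_sum]
      refine Finset.sum_congr rfl fun k _ => ?_
      rw [Finset.mul_sum]
      refine Finset.sum_congr rfl fun l _ => ?_
      rw [hσ', hc]
      simp only
      rw [norm_mul, norm_inv, Complex.norm_real, Real.norm_of_nonneg h0.le, mul_pow, ← mul_assoc,
        ← mul_pow, mul_inv_cancel₀ h0.ne', one_pow, one_mul]
    rw [e5]
    refine (mul_le_mul_of_nonneg_left hQ (by positivity)).trans ?_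
    have e6 : s ^ 2 * (δ / s + η) = s * δ + ε / 2 := by
      rw [hη]
      field_simp
    rw [e6]
    have e7 : s * δ ≤ (s₀ + 1) * δ := mul_le_mul_of_nonneg_right (by linarith) hδ0.le
    have e8 : (s₀ + 1) * δ = ε / 2 := by
      rw [hδ]
      field_simp
    linarith

end

end Pool.Agent.H71.IE
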