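import Pool.Agent.H71.IE.Pt

set_option autoImplicit false
set_option linter.unusedSectionVars false

/-!
# The maps over the same base map are treated together
-/

namespace Pool.Agent.H71.IE

open Filter Topology MeasureTheory
open scoped ComplexConjugate ENNReal
open Pool.Agent.H71.WW (av avr BM)

noncomputable section

theorem pinv {α : Type} (f : Equiv.Perm α) (x : α) : f (f⁻¹ x) = x := f.apply_symm_apply x

theorem pinv' {α : Type} (f : Equiv.Perm α) (x : α) : f⁻¹ (f x) = x := f.symm_apply_apply x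

variable {Y Z : Type} {m K : ℕ} {κ : Fin m → Fin K} {S : Fin K → Equiv.Perm Y}
  {T : Fin m → Equiv.Perm (Y × Z)}

/-- all the maps over `S k` -/
def hat (κ : Fin m → Fin K) (S : Fin K → Equiv.Perm Y) (T : Fin m → Equiv.Perm (Y × Z))
    (hT : ∀ j p, (T j p).1 = S (κ j) p.1) (k : Fin K) : Equiv.Perm (Y × (Fin m → Z)) where
  toFun p := (S k p.1, fun j => if κ j = k then (T j (p.1, p.2 j)).2 else p.2 j)
  invFun p := ((S k)⁻¹ p.1, fun j => if κ j = k then ((T j)⁻¹ (p.1, p.2 j)).2 else p.2 j)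
  left_inv p := by
    refine Prod.ext ?_ ?_
    · show (S k)⁻¹ (S k p.1) = p.1
      simp
    · funext j
      show (if κ j = k then ((T j)⁻¹ (S k p.1, (if κ j = k then (T j (p.1, p.2 j)).2 else
        p.2 j))).2 else (if κ j = k then (T j (p.1, p.2 j)).2 else p.2 j)) = p.2 j
      by_cases h : κ j = k
      · rw [if_pos h, if_pos h]
        have e : (S k p.1, (T j (p.1, p.2 j)).2) = T j (p.1, p.2 j) := by
          refine Prod.ext ?_ rfl
          rw [hT, h]
        rw [e]
        simp
      · rw [if_neg h, if_neg h]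
  right_inv p := by
    have hT' : ∀ j (p : Y × Z), ((T j)⁻¹ p).1 = (S (κ j))⁻¹ p.1 := by
      intro j p
      apply (S (κ j)).injective
      rw [← hT, pinv, pinv]
    refine Prod.ext ?_ ?_
    · show (S k) ((S k)⁻¹ p.1) = p.1
      simp
    · funext j
      show (if κ j = k then ((T j) ((S k)⁻¹ p.1, (if κ j = k then ((T j)⁻¹ (p.1, p.2 j)).2 else
        p.2 j))).2 else (if κ j = k then ((T j)⁻¹ (p.1, p.2 j)).2 else p.2 j)) = p.2 j
      by_cases h : κ j = k
      · rw [if_pos h, if_pos h]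
        have e : ((S k)⁻¹ p.1, ((T j)⁻¹ (p.1, p.2 j)).2) = (T j)⁻¹ (p.1, p.2 j) := by
          refine Prod.ext ?_ rfl
          rw [hT', h]
        rw [e]
        simp
      · rw [if_neg h, if_neg h]

variable {hT : ∀ j p, (T j p).1 = S (κ j) p.1}

theorem base_inv (hT : ∀ j p, (T j p).1 = S (κ j) p.1) (j : Fin m) (p : Y × Z) :
    ((T j)⁻¹ p).1 = (S (κ j))⁻¹ p.1 := by
  apply (S (κ j)).injective
  rw [← hT, pinv, pinv]

theorem base_z (hT : ∀ j p, (T j p).1 = S (κ j) p.1) (j : Fin m) (n : ℤ) (p : Y × Z) :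
    ((T j ^ n) p).1 = (S (κ j) ^ n) p.1 := by
  induction n generalizing p with
  | zero => rfl
  | succ n ih => rw [zpow_add_one, zpow_add_one, Equiv.Perm.mul_apply, Equiv.Perm.mul_apply, ih, hT]
  | pred n ih => rw [zpow_sub_one, zpow_sub_one, Equiv.Perm.mul_apply, Equiv.Perm.mul_apply, ih,
      base_inv hT]

theorem hat_z (k : Fin K) (n : ℤ) (p : Y × (Fin m → Z)) :
    (hat κ S T hT k ^ n) p =
      ((S k ^ n) p.1, fun j => if κ j = k then ((T j ^ n) (p.1, p.2 j)).2 else p.2 j) := by
  induction n generalizing p with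
  | zero =>
    refine Prod.ext rfl ?_
    funext j
    simp
  | succ n ih =>
    rw [zpow_add_one, Equiv.Perm.mul_apply, ih]
    refine Prod.ext ?_ ?_
    · show (S k ^ (n : ℤ)) (S k p.1) = _
      rw [zpow_add_one, Equiv.Perm.mul_apply]
    · funext j
      show (if κ j = k then ((T j ^ (n : ℤ)) (S k p.1, (if κ j = k then (T j (p.1, p.2 j)).2 else
        p.2 j))).2 else (if κ j = k then (T j (p.1, p.2 j)).2 else p.2 j)) =
        if κ j = k then ((T j ^ ((n : ℤ) + 1)) (p.1, p.2 j)).2 else p.2 j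
      by_cases h : κ j = k
      · rw [if_pos h, if_pos h, if_pos h, zpow_add_one, Equiv.Perm.mul_apply]
        congr 2
        refine Prod.ext ?_ rfl
        rw [hT, h]
      · rw [if_neg h, if_neg h, if_neg h]
  | pred n ih =>
    rw [zpow_sub_one, Equiv.Perm.mul_apply, ih]
    refine Prod.ext ?_ ?_
    · show (S k ^ (-(n : ℤ))) ((S k)⁻¹ p.1) = _
      rw [zpow_sub_one, Equiv.Perm.mul_apply]
    · funext j
      show (if κ j = k then ((T j ^ (-(n : ℤ))) ((S k)⁻¹ p.1, (if κ j = k then
        ((T j)⁻¹ (p.1, p.2 j)).2 else p.2 j))).2 else (if κ j = k then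
        ((T j)⁻¹ (p.1, p.2 j)).2 else p.2 j)) =
        if κ j = k then ((T j ^ (-(n : ℤ) - 1)) (p.1, p.2 j)).2 else p.2 j
      by_cases h : κ j = k
      · rw [if_pos h, if_pos h, if_pos h, zpow_sub_one, Equiv.Perm.mul_apply]
        congr 2
        refine Prod.ext ?_ rfl
        rw [base_inv hT, h]
      · rw [if_neg h, if_neg h, if_neg h]

variable [MeasurableSpace Y] [MeasurableSpace Z] {ν : Measure Y} [IsProbabilityMeasure ν]
  {ρ : Measure Z} [IsProbabilityMeasure ρ]

/-- the fibre maps of the inverse -/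
theorem fib_inv (hT : ∀ j p, (T j p).1 = S (κ j) p.1)
    (hm' : ∀ j, Measurable ((T j)⁻¹ : Equiv.Perm (Y × Z)))
    (hf : ∀ j y, MeasurePreserving (fun z => (T j (y, z)).2) ρ ρ) (j : Fin m) (y : Y) :
    MeasurePreserving (fun z => ((T j)⁻¹ (y, z)).2) ρ ρ := by
  have hmeas : Measurable (fun z => ((T j)⁻¹ (y, z)).2) :=
    ((hm' j).comp measurable_prodMk_left).snd
  refine ⟨hmeas, ?_⟩
  ext s hs
  rw [Measure.map_apply hmeas hs]
  have h1 := (hf j ((S (κ j))⁻¹ y)).measure_preimage (hmeas hs).nullMeasurableSet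
  rw [← h1]
  congr 1
  ext z
  show ((T j)⁻¹ (y, (T j ((S (κ j))⁻¹ y, z)).2)).2 ∈ s ↔ z ∈ s
  have e : (y, (T j ((S (κ j))⁻¹ y, z)).2) = T j ((S (κ j))⁻¹ y, z) := by
    refine Prod.ext ?_ rfl
    rw [hT]
    simp
  rw [e]
  simp

theorem fib_z (hT : ∀ j p, (T j p).1 = S (κ j) p.1)
    (hm' : ∀ j, Measurable ((T j)⁻¹ : Equiv.Perm (Y × Z)))
    (hf : ∀ j y, MeasurePreserving (fun z => (T j (y, z)).2) ρ ρ) (j : Fin m) (n : ℤ) (y : Y) :
    MeasurePreserving (fun z => ((T j ^ n) (y, z)).2) ρ ρ := by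
  induction n generalizing y with
  | zero => exact MeasurePreserving.id ρ
  | succ n ih =>
    have h1 := (ih (S (κ j) y)).comp (hf j y)
    refine Eq.mp (congrArg (fun f => MeasurePreserving f ρ ρ) ?_) h1
    funext z
    show ((T j ^ (n : ℤ)) (S (κ j) y, (T j (y, z)).2)).2 = _
    rw [zpow_add_one, Equiv.Perm.mul_apply]
    congr 2
    refine Prod.ext ?_ rfl
    rw [hT]
  | pred n ih =>
    have h1 := (ih ((S (κ j))⁻¹ y)).comp (fib_inv hT hm' hf j y)
    refine Eq.mp (congrArg (fun f => MeasurePreserving f ρ ρ) ?_) h1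
    funext z
    show ((T j ^ (-(n : ℤ))) ((S (κ j))⁻¹ y, ((T j)⁻¹ (y, z)).2)).2 = _
    rw [zpow_sub_one, Equiv.Perm.mul_apply]
    congr 2
    refine Prod.ext ?_ rfl
    rw [base_inv hT]

/-- the product maps form a system -/
theorem hat_sys (hS : ∀ k, MeasurePreserving (S k) ν ν)
    (hS' : ∀ k, MeasurePreserving ((S k)⁻¹ : Equiv.Perm Y) ν ν)
    (je : ∀ h : Fin K → Y → ℂ, (∀ i, BM (h i)) → ∀ᵐ y ∂ν,
      Tendsto (fun N => av N fun n => ∏ i, h i ((S i ^ n) y)) atTop (𝓝 (∏ i, ∫ y, h i y ∂ν)))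
    (hT : ∀ j p, (T j p).1 = S (κ j) p.1) (hm : ∀ j, Measurable (T j))
    (hm' : ∀ j, Measurable ((T j)⁻¹ : Equiv.Perm (Y × Z)))
    (hf : ∀ j y, MeasurePreserving (fun z => (T j (y, z)).2) ρ ρ) :
    Sys ν (Measure.pi fun _ : Fin m => ρ) S (hat κ S T hT) := by
  have hpi : ∀ (k : Fin K) (n : ℤ) (y : Y), MeasurePreserving (fun w : Fin m → Z => fun j =>
      if κ j = k then ((T j ^ n) (y, w j)).2 else w j) (Measure.pi fun _ => ρ)
      (Measure.pi fun _ => ρ) := by
    intro k n y
    refine measurePreserving_pi (fun _ => ρ) (fun _ => ρ) (f := fun j z =>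
      if κ j = k then ((T j ^ n) (y, z)).2 else z) fun j => ?_
    by_cases h : κ j = k
    · simp only [if_pos h]
      exact fib_z hT hm' hf j n y
    · simp only [if_neg h]
      exact MeasurePreserving.id ρ
  refine ⟨je, fun k => ?_, fun k => ?_, fun k n p => ?_, fun k n y => ?_⟩
  · have h1 : Measurable (fun (p : Y × (Fin m → Z)) => fun j =>
        if κ j = k then (T j (p.1, p.2 j)).2 else p.2 j) := by
      rw [measurable_pi_iff]
      intro j
      by_cases h : κ j = k
      · simp only [if_pos h]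
        exact ((hm j).comp (measurable_fst.prodMk ((measurable_pi_apply j).comp
          measurable_snd))).snd
      · simp only [if_neg h]
        exact (measurable_pi_apply j).comp measurable_snd
    exact MeasurePreserving.skew_product (g := fun (y : Y) (w : Fin m → Z) => fun j =>
      if κ j = k then (T j (y, w j)).2 else w j) (hS k) h1
      (Eventually.of_forall fun y => (hpi k 1 y).map_eq)
  · have h1 : Measurable (fun (p : Y × (Fin m → Z)) => fun j =>
        if κ j = k then ((T j)⁻¹ (p.1, p.2 j)).2 else p.2 j) := by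
      rw [measurable_pi_iff]
      intro j
      by_cases h : κ j = k
      · simp only [if_pos h]
        exact ((hm' j).comp (measurable_fst.prodMk ((measurable_pi_apply j).comp
          measurable_snd))).snd
      · simp only [if_neg h]
        exact (measurable_pi_apply j).comp measurable_snd
    exact MeasurePreserving.skew_product (g := fun (y : Y) (w : Fin m → Z) => fun j =>
      if κ j = k then ((T j)⁻¹ (y, w j)).2 else w j) (hS' k) h1
      (Eventually.of_forall fun y => by
        have h2 := (hpi k (-1) y).map_eq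
        simp only [zpow_neg_one] at h2
        exact h2)
  · rw [hat_z]
  · simp only [hat_z]
    exact hpi k n y

end

end Pool.Agent.H71.IE
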