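import Pool.Agent.H71.WW.Clos

set_option autoImplicit false

/-!
# Averages in a Hilbert space and the inequality of van der Corput
-/

namespace Pool.Agent.H71.IE

open Filter Topology
open Pool.Agent.H71.WW (av avr card_Icc' avr_mono avr_const)

noncomputable section

variable {H : Type*} [NormedAddCommGroup H] [InnerProductSpace ℂ H]

/-- symmetric averages -/
def avH (N : ℕ) (v : ℤ → H) : H :=
  ((2 * N + 1 : ℕ) : ℂ)⁻¹ • ∑ n ∈ Finset.Icc (-(N : ℤ)) (N : ℤ), v n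

theorem avH_add (N : ℕ) (u v : ℤ → H) : avH N (fun n => u n + v n) = avH N u + avH N v := by
  rw [avH, avH, avH, Finset.sum_add_distrib, smul_add]

theorem avH_sub (N : ℕ) (u v : ℤ → H) : avH N (fun n => u n - v n) = avH N u - avH N v := by
  rw [avH, avH, avH, Finset.sum_sub_distrib, smul_sub]

theorem avH_smul (N : ℕ) (c : ℂ) (v : ℤ → H) : avH N (fun n => c • v n) = c • avH N v := by
  rw [avH, avH, ← Finset.smul_sum, smul_comm]

theorem avH_sum {ι : Type*} (s : Finset ι) (N : ℕ) (v : ι → ℤ → H) :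
    avH N (fun n => ∑ i ∈ s, v i n) = ∑ i ∈ s, avH N (v i) := by
  simp only [avH]
  rw [Finset.sum_comm, Finset.smul_sum]

theorem avH_norm (N : ℕ) (v : ℤ → H) : ‖avH N v‖ ≤ avr N (fun n => ‖v n‖) := by
  rw [avH, avr, norm_smul, norm_inv, Complex.norm_natCast]
  exact mul_le_mul_of_nonneg_left (norm_sum_le _ _) (by positivity)

theorem avH_le {v : ℤ → H} {C : ℝ} (h : ∀ n, ‖v n‖ ≤ C) (N : ℕ) : ‖avH N v‖ ≤ C :=
  (avH_norm N v).trans ((avr_mono h).trans (avr_const N C).le)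

theorem Icc_succ (N : ℕ) : Finset.Icc (-((N + 1 : ℕ) : ℤ)) ((N + 1 : ℕ) : ℤ) =
    insert (-((N + 1 : ℕ) : ℤ)) (insert ((N + 1 : ℕ) : ℤ) (Finset.Icc (-(N : ℤ)) (N : ℤ))) := by
  ext n
  simp only [Finset.mem_Icc, Finset.mem_insert]
  push_cast
  omega

theorem sum_Icc_succ {M : Type*} [AddCommGroup M] (N : ℕ) (u : ℤ → M) :
    ∑ n ∈ Finset.Icc (-((N + 1 : ℕ) : ℤ)) ((N + 1 : ℕ) : ℤ), u n =
      u (-((N + 1 : ℕ) : ℤ)) + (u ((N + 1 : ℕ) : ℤ) +
        ∑ n ∈ Finset.Icc (-(N : ℤ)) (N : ℤ), u n) := by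
  rw [Icc_succ, Finset.sum_insert, Finset.sum_insert]
  · simp only [Finset.mem_Icc]
    push_cast
    omega
  · simp only [Finset.mem_Icc, Finset.mem_insert]
    push_cast
    omega

theorem tele {M : Type*} [AddCommGroup M] (N : ℕ) (u : ℤ → M) :
    ∑ n ∈ Finset.Icc (-(N : ℤ)) (N : ℤ), (u (n + 1) - u n) = u (N + 1) - u (-N) := by
  induction N with
  | zero => simp
  | succ N ih =>
    rw [sum_Icc_succ, ih]
    have e1 : (-((N + 1 : ℕ) : ℤ)) + 1 = -(N : ℤ) := by push_cast; ring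
    have e2 : ((N : ℤ) + 1) = ((N + 1 : ℕ) : ℤ) := by push_cast; ring
    rw [e1, e2]
    abel

theorem avH_shift_le {v : ℤ → H} {C : ℝ} (h : ∀ n, ‖v n‖ ≤ C) (k N : ℕ) :
    ‖avH N (fun n => v (n + k)) - avH N v‖ ≤ k * (2 * C) * ((2 * N + 1 : ℕ) : ℝ)⁻¹ := by
  induction k with
  | zero => simp
  | succ k ih =>
    have e : avH N (fun n => v (n + (k + 1 : ℕ))) - avH N v =
        (avH N (fun n => v (n + (k + 1 : ℕ))) - avH N (fun n => v (n + k))) +
          (avH N (fun n => v (n + k)) - avH N v) := by abel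
    have e2 : avH N (fun n => v (n + (k + 1 : ℕ))) - avH N (fun n => v (n + k)) =
        ((2 * N + 1 : ℕ) : ℂ)⁻¹ • (v (N + 1 + k) - v (-N + k)) := by
      rw [← avH_sub, avH]
      congr 1
      rw [← tele N (fun n => v (n + k))]
      refine Finset.sum_congr rfl fun n _ => ?_
      congr 2
      push_cast
      ring
    have h1 : ‖((2 * N + 1 : ℕ) : ℂ)⁻¹ • (v (N + 1 + k) - v (-N + k))‖ ≤
        (2 * C) * ((2 * N + 1 : ℕ) : ℝ)⁻¹ := by
      rw [norm_smul, norm_inv, Complex.norm_natCast, mul_comm]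
      refine mul_le_mul_of_nonneg_right ?_ (by positivity)
      refine (norm_sub_le _ _).trans ?_
      have := h (N + 1 + k)
      have := h (-N + k)
      linarith
    rw [e]
    refine (norm_add_le _ _).trans ?_
    rw [e2]
    refine (add_le_add h1 ih).trans (le_of_eq ?_)
    push_cast
    ring

theorem tendsto_inv_two (c : ℝ) :
    Tendsto (fun N : ℕ => c * ((2 * N + 1 : ℕ) : ℝ)⁻¹) atTop (𝓝 0) := by
  have h1 : Tendsto (fun N : ℕ => 2 * N + 1) atTop atTop :=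
    tendsto_atTop_mono (fun N => by show N ≤ _; omega) tendsto_id
  have := ((tendsto_inv_atTop_nhds_zero_nat (𝕜 := ℝ)).comp h1).const_mul c
  rwa [mul_zero] at this

theorem sq_avr_le (N : ℕ) (a : ℤ → ℝ) : (avr N a) ^ 2 ≤ avr N (fun n => a n ^ 2) := by
  have h0 : (0 : ℝ) < ((2 * N + 1 : ℕ) : ℝ) := by positivity
  have h1 := sq_sum_le_card_mul_sum_sq (s := Finset.Icc (-(N : ℤ)) (N : ℤ)) (f := a)
  rw [card_Icc'] at h1
  rw [avr, avr, mul_pow, sq (((2 * N + 1 : ℕ) : ℝ)⁻¹), mul_assoc]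
  refine mul_le_mul_of_nonneg_left ?_ (by positivity)
  rw [inv_mul_le_iff₀ h0]
  exact h1

/-- **the inequality of van der Corput** -/
theorem vdc {v : ℤ → H} {C : ℝ} (hv : ∀ n, ‖v n‖ ≤ C) {Γ : ℕ → ℕ → ℂ}
    (hΓ : ∀ k l : ℕ, Tendsto (fun N => av N fun n => inner ℂ (v (n + l)) (v (n + k))) atTop
      (𝓝 (Γ k l))) {Q : ℕ} (hQ : 1 ≤ Q) {η : ℝ} (hη : 0 < η) :
    ∀ᶠ N in atTop, ‖avH N v‖ ^ 2 ≤
      ‖(Q : ℂ)⁻¹ ^ 2 * ∑ k ∈ Finset.range Q, ∑ l ∈ Finset.range Q, Γ k l‖ + η := by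
  have hQ0 : (0 : ℝ) < Q := by exact_mod_cast hQ
  have hQc : (Q : ℂ) ≠ 0 := by exact_mod_cast (by omega : Q ≠ 0)
  have hC : 0 ≤ C := (norm_nonneg _).trans (hv 0)
  set b : ℤ → H := fun n => (Q : ℂ)⁻¹ • ∑ k ∈ Finset.range Q, v (n + k) with hb
  have hbn : ∀ n, ‖b n‖ ≤ C := by
    intro n
    rw [hb]
    simp only
    rw [norm_smul, norm_inv, Complex.norm_natCast, inv_mul_le_iff₀ hQ0]
    refine (norm_sum_le _ _).trans ?_
    have e := Finset.sum_le_sum (s := Finset.range Q) (f := fun k : ℕ => ‖v (n + k)‖)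
      (g := fun _ => C) fun k _ => hv (n + k)
    refine e.trans (le_of_eq ?_)
    rw [Finset.sum_const, Finset.card_range, nsmul_eq_mul]
  -- the first step
  have h1 : ∀ N, ‖avH N b - avH N v‖ ≤ Q * (2 * C) * ((2 * N + 1 : ℕ) : ℝ)⁻¹ := by
    intro N
    have e : avH N b - avH N v = (Q : ℂ)⁻¹ • ∑ k ∈ Finset.range Q,
        (avH N (fun n => v (n + k)) - avH N v) := by
      rw [hb, avH_smul, avH_sum, Finset.sum_sub_distrib, smul_sub, Finset.sum_const,
        Finset.card_range, ← Nat.cast_smul_eq_nsmul ℂ, smul_smul, inv_mul_cancel₀ hQc, one_smul]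
    rw [e, norm_smul, norm_inv, Complex.norm_natCast, inv_mul_le_iff₀ hQ0]
    refine (norm_sum_le _ _).trans ?_
    refine (Finset.sum_le_sum fun k hk => (avH_shift_le hv k N).trans
      (mul_le_mul_of_nonneg_right (mul_le_mul_of_nonneg_right (b := (k : ℝ)) (c := (Q : ℝ)) ?_
        (by positivity)) (by positivity))).trans ?_
    · exact_mod_cast (Finset.mem_range.1 hk).le
    · rw [Finset.sum_const, Finset.card_range, nsmul_eq_mul]
  have h2 : Tendsto (fun N => ‖avH N b - avH N v‖) atTop (𝓝 0) :=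
    squeeze_zero (fun _ => norm_nonneg _) h1 (tendsto_inv_two _)
  -- the second step
  have h3 : ∀ N, ((avr N (fun n => ‖b n‖ ^ 2) : ℝ) : ℂ) =
      (Q : ℂ)⁻¹ ^ 2 * ∑ k ∈ Finset.range Q, ∑ l ∈ Finset.range Q,
        av N (fun n => inner ℂ (v (n + l)) (v (n + k))) := by
    intro N
    have e : ∀ n, ((‖b n‖ ^ 2 : ℝ) : ℂ) = (Q : ℂ)⁻¹ ^ 2 * ∑ k ∈ Finset.range Q,
        ∑ l ∈ Finset.range Q, inner ℂ (v (n + l)) (v (n + k)) := by
      intro n
      have e1 := inner_self_eq_norm_sq_to_K (𝕜 := ℂ) (b n)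
      have e2 : ((‖b n‖ ^ 2 : ℝ) : ℂ) = inner ℂ (b n) (b n) := by
        rw [e1]
        push_cast
        rfl
      rw [e2, hb]
      simp only
      rw [inner_smul_left, inner_smul_right, sum_inner, map_inv₀, Complex.conj_natCast, ← mul_assoc,
        sq]
      congr 1
      rw [Finset.sum_comm]
      exact Finset.sum_congr rfl fun l _ => inner_sum _ _ _
    rw [avr, Complex.ofReal_mul, Complex.ofReal_sum, Complex.ofReal_inv, Complex.ofReal_natCast]
    simp_rw [e]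
    simp only [av]
    rw [← Finset.mul_sum, mul_left_comm]
    congr 1
    rw [Finset.sum_comm, Finset.mul_sum]
    refine Finset.sum_congr rfl fun k _ => ?_
    rw [Finset.sum_comm, Finset.mul_sum]
  have h4 : Tendsto (fun N => ((avr N (fun n => ‖b n‖ ^ 2) : ℝ) : ℂ)) atTop
      (𝓝 ((Q : ℂ)⁻¹ ^ 2 * ∑ k ∈ Finset.range Q, ∑ l ∈ Finset.range Q, Γ k l)) := by
    simp_rw [h3]
    exact Tendsto.const_mul _ (tendsto_finsetSum _ fun k _ => tendsto_finsetSum _ fun l _ => hΓ k l)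
  have h5 := h4.norm
  have h6 := (h2.const_mul (2 * C))
  rw [mul_zero] at h6
  have h7 := h5.add h6
  rw [add_zero] at h7
  filter_upwards [h7.eventually_le_const (lt_add_of_pos_right _ hη)] with N hN
  refine le_trans ?_ hN
  have g1 : ‖avH N b‖ ^ 2 ≤ ‖((avr N (fun n => ‖b n‖ ^ 2) : ℝ) : ℂ)‖ := by
    have g2 : 0 ≤ avr N (fun n => ‖b n‖ ^ 2) := (sq_nonneg _).trans (sq_avr_le N fun n => ‖b n‖)
    rw [Complex.norm_real, Real.norm_of_nonneg g2]
    refine le_trans ?_ (sq_avr_le N fun n => ‖b n‖)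
    exact pow_le_pow_left₀ (norm_nonneg _) (avH_norm N b) 2
  have g3 : ‖avH N v‖ ≤ ‖avH N b‖ + ‖avH N b - avH N v‖ := by
    have := norm_sub_norm_le (avH N v) (avH N b)
    rw [norm_sub_rev] at this
    linarith
  have g4 : ‖avH N v‖ ≤ C := avH_le hv N
  have g5 : ‖avH N b‖ ≤ C := avH_le hbn N
  have g6 : ‖avH N v‖ ^ 2 ≤ ‖avH N b‖ ^ 2 + 2 * C * ‖avH N b - avH N v‖ := by
    have a1 : ‖avH N v‖ ^ 2 - ‖avH N b‖ ^ 2 =
        (‖avH N v‖ - ‖avH N b‖) * (‖avH N v‖ + ‖avH N b‖) := by ring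
    have a2 : (‖avH N v‖ - ‖avH N b‖) * (‖avH N v‖ + ‖avH N b‖) ≤
        ‖avH N b - avH N v‖ * (2 * C) := by
      refine mul_le_mul (by linarith) (by linarith) (by positivity) (norm_nonneg _)
    linarith
  linarith

end

end Pool.Agent.H71.IE
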