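import Pool.Agent.H71.IE.Eig
import Pool.Agent.H71.IE.Hil

set_option autoImplicit false
set_option linter.unusedSectionVars false

/-!
# Mean convergence along the fibres over jointly ergodic maps
-/

namespace Pool.Agent.H71.IE

open Filter Topology MeasureTheory
open scoped ComplexConjugate ENNReal
open Pool.Agent.H71.WW (av avr BM)

noncomputable section

variable {Y W : Type} [MeasurableSpace Y] [MeasurableSpace W] {ν : Measure Y}
  [IsProbabilityMeasure ν] {ρ : Measure W} [IsProbabilityMeasure ρ] {K : ℕ}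

/-- the situation -/
structure Sys (ν : Measure Y) (ρ : Measure W) (S : Fin K → Equiv.Perm Y)
    (T : Fin K → Equiv.Perm (Y × W)) : Prop where
  je : ∀ h : Fin K → Y → ℂ, (∀ i, BM (h i)) → ∀ᵐ y ∂ν,
    Tendsto (fun N => av N fun n => ∏ i, h i ((S i ^ n) y)) atTop (𝓝 (∏ i, ∫ y, h i y ∂ν))
  mp : ∀ i, MeasurePreserving (T i) (ν.prod ρ) (ν.prod ρ)
  mp' : ∀ i, MeasurePreserving ((T i)⁻¹ : Equiv.Perm (Y × W)) (ν.prod ρ) (ν.prod ρ)
  bs : ∀ i (n : ℤ) p, ((T i ^ n) p).1 = (S i ^ n) p.1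
  fb : ∀ i (n : ℤ) y, MeasurePreserving (fun w => ((T i ^ n) (y, w)).2) ρ ρ

variable {S : Fin K → Equiv.Perm Y} {T : Fin K → Equiv.Perm (Y × W)}

/-- the product -/
def vv (T : Fin K → Equiv.Perm (Y × W)) (F : Fin K → Y × W → ℂ) (y : Y) (n : ℤ)
    (w : Fin K → W) : ℂ := ∏ i, F i ((T i ^ n) (y, w i))

/-- the product measure -/
abbrev rK (ρ : Measure W) (K : ℕ) : Measure (Fin K → W) := Measure.pi fun _ => ρ

open Classical in
/-- the vector -/
def VV (ρ : Measure W) (T : Fin K → Equiv.Perm (Y × W)) (F : Fin K → Y × W → ℂ) (y : Y) (n : ℤ) :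
    Lp ℂ 2 (rK ρ K) :=
  if h : MemLp (vv T F y n) 2 (rK ρ K) then h.toLp _ else 0

theorem Sys.zm (H : Sys ν ρ S T) (i : Fin K) (n : ℤ) :
    MeasurePreserving ((T i ^ n : Equiv.Perm (Y × W)) : Y × W → Y × W) (ν.prod ρ) (ν.prod ρ) :=
  zmeas (H.mp i) (H.mp' i) n

theorem vv_bd {F : Fin K → Y × W → ℂ} {C : Fin K → ℝ} (hC : ∀ i p, ‖F i p‖ ≤ C i) (y : Y) (n : ℤ)
    (w : Fin K → W) : ‖vv T F y n w‖ ≤ ∏ i, C i := by
  unfold vv
  rw [norm_prod]
  exact Finset.prod_le_prod (fun i _ => norm_nonneg _) fun i _ => hC i _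

theorem vv_meas (H : Sys ν ρ S T) {F : Fin K → Y × W → ℂ} (hF : ∀ i, BM (F i)) (y : Y) (n : ℤ) :
    Measurable (vv T F y n) := by
  unfold vv
  refine Finset.measurable_fun_prod _ fun i _ => ?_
  exact (hF i).1.comp ((H.zm i n).measurable.comp
    (measurable_const.prodMk (measurable_pi_apply i)))

theorem vv_mem (H : Sys ν ρ S T) {F : Fin K → Y × W → ℂ} (hF : ∀ i, BM (F i)) (y : Y) (n : ℤ) :
    MemLp (vv T F y n) 2 (rK ρ K) := by
  choose C hC using fun i => (hF i).2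
  exact MemLp.of_bound (vv_meas H hF y n).aestronglyMeasurable _
    (Eventually.of_forall (vv_bd hC y n))

theorem VV_eq (H : Sys ν ρ S T) {F : Fin K → Y × W → ℂ} (hF : ∀ i, BM (F i)) (y : Y) (n : ℤ) :
    VV ρ T F y n = (vv_mem H hF y n).toLp _ := by
  unfold VV
  rw [dif_pos (vv_mem H hF y n)]

theorem VV_norm (H : Sys ν ρ S T) {F : Fin K → Y × W → ℂ} {C : Fin K → ℝ}
    (hF : ∀ i, BM (F i)) (hC : ∀ i p, ‖F i p‖ ≤ C i) (y : Y) (n : ℤ) :
    ‖VV ρ T F y n‖ ≤ ∏ i, C i := by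
  rw [VV_eq H hF, Lp.norm_toLp]
  have h0 : 0 ≤ ∏ i, C i := Finset.prod_nonneg fun i _ => by
    by_cases hY : Nonempty (Y × W)
    · exact (norm_nonneg _).trans (hC i hY.some)
    · exfalso
      obtain ⟨q⟩ : Nonempty W := by
        by_contra hW
        rw [not_nonempty_iff] at hW
        exact IsProbabilityMeasure.ne_zero ρ (Measure.eq_zero_of_isEmpty ρ)
      exact hY ⟨(y, q)⟩
  refine ENNReal.toReal_le_of_le_ofReal h0 ?_
  refine (eLpNorm_le_of_ae_bound (Eventually.of_forall (vv_bd hC y n))).trans ?_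
  simp

theorem inner_toLp {Ω : Type} [MeasurableSpace Ω] {P : Measure Ω} {f g : Ω → ℂ} (hf : MemLp f 2 P)
    (hg : MemLp g 2 P) : inner ℂ (hf.toLp f) (hg.toLp g) = ∫ x, conj (f x) * g x ∂P := by
  rw [L2.inner_def]
  apply integral_congr_ae
  filter_upwards [hf.coeFn_toLp, hg.coeFn_toLp] with x h1 h2
  rw [h1, h2]
  show inner ℂ (f x) (g x) = _
  rw [RCLike.inner_apply']

/-- the correlations over the base -/
def Hf (ρ : Measure W) (T : Equiv.Perm (Y × W)) (F : Y × W → ℂ) (k l : ℕ) (y : Y) : ℂ :=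
  ∫ w, conj (F ((T ^ (l : ℤ)) (y, w))) * F ((T ^ (k : ℤ)) (y, w)) ∂ρ

theorem Hf_BM {T : Equiv.Perm (Y × W)} (hT : ∀ n : ℤ, Measurable ((T ^ n : Equiv.Perm (Y × W)) :
    Y × W → Y × W)) {F : Y × W → ℂ} (hF : BM F) (k l : ℕ) : BM (Hf ρ T F k l) := by
  have h1 : BM fun p : Y × W => conj (F ((T ^ (l : ℤ)) p)) * F ((T ^ (k : ℤ)) p) :=
    BM.mul' (BM.conj' (BM.comp' hF (hT l))) (BM.comp' hF (hT k))
  obtain ⟨h2, C, hC⟩ := h1
  refine ⟨?_, C, fun y => ?_⟩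
  · exact (h2.stronglyMeasurable.integral_prod_right' (ν := ρ)).measurable
  · unfold Hf
    refine (norm_integral_le_of_norm_le_const (C := C) (Eventually.of_forall fun w =>
      hC (y, w))).trans ?_
    simp

theorem Hf_int {T : Equiv.Perm (Y × W)} (hT : MeasurePreserving T (ν.prod ρ) (ν.prod ρ))
    (hT' : MeasurePreserving (T⁻¹ : Equiv.Perm (Y × W)) (ν.prod ρ) (ν.prod ρ)) {F : Y × W → ℂ}
    (hF : BM F) (k l : ℕ) : ∫ y, Hf ρ T F k l y ∂ν = co (ν.prod ρ) T F ((k : ℤ) - l) := by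
  have hm := fun n => zmeas hT hT' n
  rw [← co_eq hT hT' hF]
  unfold Hf
  rw [← integral_prod (fun p : Y × W => conj (F ((T ^ (l : ℤ)) p)) * F ((T ^ (k : ℤ)) p))
    (BM.int' (BM.mul' (BM.conj' (BM.comp' hF (hm l).measurable))
      (BM.comp' hF (hm k).measurable)))]
  congr 1
  funext p
  rw [mul_comm]

/-- inner products are functions of the base -/
theorem inner_VV (H : Sys ν ρ S T) {F : Fin K → Y × W → ℂ} (hF : ∀ i, BM (F i)) (y : Y) (n : ℤ)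
    (k l : ℕ) : inner ℂ (VV ρ T F y (n + l)) (VV ρ T F y (n + k)) =
      ∏ i, Hf ρ (T i) (F i) k l ((S i ^ n) y) := by
  rw [VV_eq H hF, VV_eq H hF, inner_toLp]
  have e1 : ∀ w : Fin K → W, conj (vv T F y (n + l) w) * vv T F y (n + k) w =
      ∏ i, (fun w => conj (F i ((T i ^ (n + l : ℤ)) (y, w))) * F i ((T i ^ (n + k : ℤ)) (y, w)))
        (w i) := by
    intro w
    unfold vv
    rw [map_prod, ← Finset.prod_mul_distrib]
  simp_rw [e1]
  rw [integral_fintype_prod_eq_prod (𝕜 := ℂ) (f := fun i w =>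
    conj (F i ((T i ^ (n + l : ℤ)) (y, w))) * F i ((T i ^ (n + k : ℤ)) (y, w)))]
  refine Finset.prod_congr rfl fun i _ => ?_
  have hm := fun n => H.zm i n
  have h1 := mp_int (H.fb i n y) (g := fun w => conj (F i ((T i ^ (l : ℤ)) ((S i ^ n) y, w))) *
    F i ((T i ^ (k : ℤ)) ((S i ^ n) y, w))) (by
      have h2 : BM fun p : Y × W => conj (F i ((T i ^ (l : ℤ)) p)) * F i ((T i ^ (k : ℤ)) p) :=
        BM.mul' (BM.conj' (BM.comp' (hF i) (hm l).measurable))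
          (BM.comp' (hF i) (hm k).measurable)
      exact ⟨h2.1.comp measurable_prodMk_left, h2.2.choose, fun w => h2.2.choose_spec _⟩)
  unfold Hf
  rw [← h1]
  congr 1
  funext w
  have e2 : ∀ k : ℤ, (T i ^ (n + k)) (y, w) = (T i ^ k) ((S i ^ n) y, ((T i ^ n) (y, w)).2) := by
    intro k
    rw [add_comm, zpow_add, Equiv.Perm.mul_apply]
    congr 1
    exact Prod.ext (H.bs i n (y, w)) rfl
  rw [e2, e2]

/-- the limits of the correlations -/
theorem corr_lim (H : Sys ν ρ S T) {F : Fin K → Y × W → ℂ} (hF : ∀ i, BM (F i)) :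
    ∀ᵐ y ∂ν, ∀ k l : ℕ, Tendsto (fun N => av N fun n =>
      inner ℂ (VV ρ T F y (n + l)) (VV ρ T F y (n + k))) atTop
      (𝓝 (∏ i, co (ν.prod ρ) (T i) (F i) ((k : ℤ) - l))) := by
  rw [ae_all_iff]
  intro k
  rw [ae_all_iff]
  intro l
  have h1 := H.je (fun i => Hf ρ (T i) (F i) k l) fun i =>
    Hf_BM (fun n => (H.zm i n).measurable) (hF i) k l
  filter_upwards [h1] with y hy
  simp_rw [inner_VV H hF]
  refine Eq.mp (congrArg _ (congrArg 𝓝 ?_)) hy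
  exact Finset.prod_congr rfl fun i _ => Hf_int (H.mp i) (H.mp' i) (hF i) k l

theorem co_bd {T : Equiv.Perm (Y × W)} {F : Y × W → ℂ} {C : ℝ} (hC : ∀ p, ‖F p‖ ≤ C) (hC0 : 0 ≤ C)
    (n : ℤ) : ‖co (ν.prod ρ) T F n‖ ≤ C ^ 2 := by
  unfold co
  refine (norm_integral_le_of_norm_le_const (C := C ^ 2) (Eventually.of_forall fun p => ?_)).trans ?_
  · rw [norm_mul, RCLike.norm_conj, sq]
    exact mul_le_mul (hC _) (hC _) (norm_nonneg _) hC0
  · simp

/-- averages are small if one of the functions has almost no eigenfunctions -/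
theorem small (H : Sys ν ρ S T) {F : Fin K → Y × W → ℂ} (hF : ∀ i, BM (F i)) {C : ℝ}
    (hC1 : 1 ≤ C) (i₀ : Fin K) (hC : ∀ i, i ≠ i₀ → ∀ p, ‖F i p‖ ≤ C) {ε : ℝ}
    (hε : ∀ᶠ Q : ℕ in atTop, (Q : ℝ)⁻¹ ^ 2 * ∑ k ∈ Finset.range Q, ∑ l ∈ Finset.range Q,
        ‖co (ν.prod ρ) (T i₀) (F i₀) ((k : ℤ) - l)‖ ^ 2 ≤ ε ^ 2) (hε0 : 0 < ε) :
    ∀ᵐ y ∂ν, ∀ᶠ N in atTop, ‖avH N (VV ρ T F y)‖ ^ 2 ≤ (C ^ 2) ^ K * ε + ε := by
  obtain ⟨Q, hQ, hQ1⟩ := (hε.and (eventually_ge_atTop 1)).exists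
  have hQ0 : (0 : ℝ) < Q := by exact_mod_cast hQ1
  filter_upwards [corr_lim H hF] with y hy
  choose D hD using fun i => (hF i).2
  have hb : ∀ n, ‖VV ρ T F y n‖ ≤ ∏ i : Fin K, D i := VV_norm H hF hD y
  have h1 := vdc hb hy hQ1 hε0
  filter_upwards [h1] with N hN
  refine hN.trans ?_
  have h2 : ‖(Q : ℂ)⁻¹ ^ 2 * ∑ k ∈ Finset.range Q, ∑ l ∈ Finset.range Q,
      ∏ i, co (ν.prod ρ) (T i) (F i) ((k : ℤ) - l)‖ ≤ (Q : ℝ)⁻¹ ^ 2 * ∑ k ∈ Finset.range Q,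
        ∑ l ∈ Finset.range Q, (C ^ 2) ^ K * ‖co (ν.prod ρ) (T i₀) (F i₀) ((k : ℤ) - l)‖ := by
    rw [norm_mul, norm_pow, norm_inv, Complex.norm_natCast]
    refine mul_le_mul_of_nonneg_left ?_ (by positivity)
    refine (norm_sum_le _ _).trans (Finset.sum_le_sum fun k _ => ?_)
    refine (norm_sum_le _ _).trans (Finset.sum_le_sum fun l _ => ?_)
    rw [norm_prod, ← Finset.mul_prod_erase Finset.univ _ (Finset.mem_univ i₀), mul_comm]
    refine mul_le_mul_of_nonneg_right ?_ (norm_nonneg _)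
    refine (Finset.prod_le_prod (fun i _ => norm_nonneg _) fun i hi =>
      co_bd (hC i (Finset.ne_of_mem_erase hi)) (by linarith) _).trans ?_
    rw [Finset.prod_const]
    refine pow_le_pow_right₀ (one_le_pow₀ hC1) ?_
    rw [Finset.card_erase_of_mem (Finset.mem_univ i₀), Finset.card_univ, Fintype.card_fin]
    exact Nat.sub_le _ _
  refine add_le_add (h2.trans ?_) le_rfl
  simp_rw [← Finset.mul_sum]
  rw [mul_left_comm]
  refine mul_le_mul_of_nonneg_left ?_ (by positivity)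
  -- Cauchy-Schwarz
  set a : ℕ × ℕ → ℝ := fun q => ‖co (ν.prod ρ) (T i₀) (F i₀) ((q.1 : ℤ) - q.2)‖ with ha
  have e1 : ∑ k ∈ Finset.range Q, ∑ l ∈ Finset.range Q,
      ‖co (ν.prod ρ) (T i₀) (F i₀) ((k : ℤ) - l)‖ =
      ∑ q ∈ Finset.range Q ×ˢ Finset.range Q, a q := by
    rw [Finset.sum_product]
  have e2 : ∑ k ∈ Finset.range Q, ∑ l ∈ Finset.range Q,
      ‖co (ν.prod ρ) (T i₀) (F i₀) ((k : ℤ) - l)‖ ^ 2 =
      ∑ q ∈ Finset.range Q ×ˢ Finset.range Q, a q ^ 2 := by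
    rw [Finset.sum_product]
  rw [e2] at hQ
  rw [e1]
  have h3 := sq_sum_le_card_mul_sum_sq (s := Finset.range Q ×ˢ Finset.range Q) (f := a)
  rw [Finset.card_product, Finset.card_range] at h3
  refine le_of_sq_le_sq ?_ hε0.le
  refine le_trans ?_ hQ
  rw [mul_pow]
  refine (mul_le_mul_of_nonneg_left h3 (by positivity)).trans (le_of_eq ?_)
  push_cast
  field_simp

end

end Pool.Agent.H71.IE
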