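import Pool.Agent.H71.IE.Joint

set_option autoImplicit false
set_option linter.unusedSectionVars false

/-!
# Mean convergence along the fibres: assembly
-/

namespace Pool.Agent.H71.IE

open Filter Topology MeasureTheory
open scoped ComplexConjugate ENNReal
open Pool.Agent.H71.WW (av avr BM av_of_sides)

noncomputable section

/-- replacing the entries slot by slot -/
theorem ext2 {α : Type*} {m : ℕ} {P : (Fin m → α) → Prop} {𝒬 𝒜 : Fin m → Set α}
    (step : ∀ f : Fin m → α, (∀ j, f j ∈ 𝒬 j ∪ 𝒜 j) → ∀ k,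
      (∀ e ∈ 𝒬 k, P (Function.update f k e)) → ∀ h ∈ 𝒜 k, P (Function.update f k h))
    (base : ∀ f : Fin m → α, (∀ j, f j ∈ 𝒬 j) → P f) {f : Fin m → α}
    (hf : ∀ j, f j ∈ 𝒜 j) : P f := by
  classical
  have key : ∀ (B : Finset (Fin m)) (f : Fin m → α), (∀ j ∈ B, f j ∈ 𝒜 j) →
      (∀ j ∉ B, f j ∈ 𝒬 j) → P f := by
    intro B
    induction B using Finset.induction_on with
    | empty => exact fun f _ h => base f fun j => h j (Finset.notMem_empty j)
    | insert k B hk ih =>
      intro f h1 h2
      have h3 := step f (fun j => by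
        by_cases hj : j ∈ insert k B
        · exact Or.inr (h1 j hj)
        · exact Or.inl (h2 j hj)) k (fun e he => by
          apply ih
          · intro l hl
            have hlk : l ≠ k := fun h => hk (h ▸ hl)
            rw [Function.update_of_ne hlk]
            exact h1 l (Finset.mem_insert_of_mem hl)
          · intro l hl
            by_cases hlk : l = k
            · subst hlk
              rw [Function.update_self]
              exact he
            · rw [Function.update_of_ne hlk]
              apply h2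
              rw [Finset.mem_insert]
              tauto) (f k) (h1 k (Finset.mem_insert_self k B))
      rwa [Function.update_eq_self] at h3
  exact key Finset.univ f (fun j _ => hf j) fun j hj => absurd (Finset.mem_univ j) hj

variable {Y W : Type} [MeasurableSpace Y] [MeasurableSpace W] {ν : Measure Y}
  [IsProbabilityMeasure ν] {ρ : Measure W} [IsProbabilityMeasure ρ] {K : ℕ}
  {S : Fin K → Equiv.Perm Y} {T : Fin K → Equiv.Perm (Y × W)}

/-- the averages converge in mean on almost every fibre -/
def PP' (ν : Measure Y) (ρ : Measure W) (T : Fin K → Equiv.Perm (Y × W))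
    (F : Fin K → Y × W → ℂ) : Prop :=
  ∀ᵐ y ∂ν, ∃ L, Tendsto (fun N => avH N (VV ρ T F y)) atTop (𝓝 L)

theorem vv_update (F : Fin K → Y × W → ℂ) (k : Fin K) (f : Y × W → ℂ) (y : Y) (n : ℤ)
    (w : Fin K → W) : vv T (Function.update F k f) y n w =
      f ((T k ^ n) (y, w k)) * ∏ i ∈ Finset.univ.erase k, F i ((T i ^ n) (y, w i)) := by
  unfold vv
  rw [← Finset.mul_prod_erase Finset.univ _ (Finset.mem_univ k), Function.update_self]
  congr 1
  refine Finset.prod_congr rfl fun i hi => ?_
  rw [Function.update_of_ne (Finset.ne_of_mem_erase hi)]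

theorem BM_update {F : Fin K → Y × W → ℂ} (hF : ∀ i, BM (F i)) (k : Fin K) {f : Y × W → ℂ}
    (hf : BM f) (i : Fin K) : BM (Function.update F k f i) := by
  by_cases h : i = k
  · subst h
    rw [Function.update_self]
    exact hf
  · rw [Function.update_of_ne h]
    exact hF i

theorem VV_add (H : Sys ν ρ S T) {F : Fin K → Y × W → ℂ} (hF : ∀ i, BM (F i)) (k : Fin K)
    {f g : Y × W → ℂ} (hf : BM f) (hg : BM g) (y : Y) (n : ℤ) :
    VV ρ T (Function.update F k (f + g)) y n =
      VV ρ T (Function.update F k f) y n + VV ρ T (Function.update F k g) y n := by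
  have hfg : BM (f + g) := by
    obtain ⟨h1, c, hc⟩ := hf
    obtain ⟨h2, d, hd⟩ := hg
    exact ⟨h1.add h2, c + d, fun x => (norm_add_le _ _).trans (add_le_add (hc x) (hd x))⟩
  rw [VV_eq H (BM_update hF k hfg), VV_eq H (BM_update hF k hf), VV_eq H (BM_update hF k hg),
    ← MemLp.toLp_add]
  congr 1
  funext w
  rw [Pi.add_apply, vv_update, vv_update, vv_update, Pi.add_apply, add_mul]

theorem VV_smul (H : Sys ν ρ S T) {F : Fin K → Y × W → ℂ} (hF : ∀ i, BM (F i)) (k : Fin K)
    (c : ℂ) {f : Y × W → ℂ} (hf : BM f) (y : Y) (n : ℤ) :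
    VV ρ T (Function.update F k (c • f)) y n = c • VV ρ T (Function.update F k f) y n := by
  have hcf : BM (c • f) := BM.cmul hf c
  rw [VV_eq H (BM_update hF k hcf), VV_eq H (BM_update hF k hf), ← MemLp.toLp_const_smul]
  congr 1
  funext w
  rw [Pi.smul_apply, vv_update, vv_update, Pi.smul_apply, smul_eq_mul, smul_eq_mul, mul_assoc]

/-- linearity in a slot -/
theorem PP'_span (H : Sys ν ρ S T) {F : Fin K → Y × W → ℂ} (hF : ∀ i, BM (F i)) (k : Fin K)
    (h : ∀ e ∈ Eg (T k), PP' ν ρ T (Function.update F k e)) {f : Y × W → ℂ}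
    (hf : f ∈ Submodule.span ℂ (Eg (T k))) : PP' ν ρ T (Function.update F k f) := by
  induction hf using Submodule.span_induction with
  | mem f hf => exact h f hf
  | zero =>
    have h0 : BM (0 : Y × W → ℂ) := ⟨measurable_const, 0, fun x => by simp⟩
    refine Eventually.of_forall fun y => ⟨0, ?_⟩
    have e : ∀ n, VV ρ T (Function.update F k 0) y n = 0 := by
      intro n
      have := VV_smul H hF k 0 h0 y n
      rwa [zero_smul, zero_smul] at this
    refine tendsto_const_nhds.congr fun N => ?_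
    unfold avH
    simp [e]
  | add f g hf hg ih ih' =>
    filter_upwards [ih, ih'] with y h1 h2
    obtain ⟨L, hL⟩ := h1
    obtain ⟨M, hM⟩ := h2
    refine ⟨L + M, (hL.add hM).congr fun N => ?_⟩
    rw [← avH_add]
    congr 1
    funext n
    exact (VV_add H hF k (BM_span hf) (BM_span hg) y n).symm
  | smul c f hf ih =>
    filter_upwards [ih] with y h1
    obtain ⟨L, hL⟩ := h1
    refine ⟨c • L, (hL.const_smul c).congr fun N => ?_⟩
    rw [← avH_smul]
    congr 1
    funext n
    exact (VV_smul H hF k c (BM_span hf) y n).symm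

/-- averages of the powers of a number of modulus one -/
theorem av_pow (l : Circle) : ∃ L, Tendsto (fun N => av N fun n => ((l ^ n : Circle) : ℂ)) atTop
    (𝓝 L) := by
  have h1 : ∀ z : Circle, ∃ L : ℂ, Tendsto (fun N : ℕ => (N : ℂ)⁻¹ * ∑ n ∈ Finset.range N,
      ((z ^ n : Circle) : ℂ)) atTop (𝓝 L) := by
    intro z
    by_cases hz : z = 1
    · subst hz
      refine ⟨1, tendsto_const_nhds.congr' ?_⟩
      filter_upwards [eventually_ge_atTop 1] with N hN
      have hc : (N : ℂ) ≠ 0 := by exact_mod_cast (by omega : N ≠ 0)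
      simp [hc]
    · refine ⟨0, ?_⟩
      have h2 := WW.geom_zero (w := (z : ℂ)) (Circle.norm_coe z) (fun h => hz (by
        rw [← Circle.coe_one] at h
        exact Circle.coe_inj.1 h))
      exact h2.congr fun N => by simp only [Circle.coe_pow]
  obtain ⟨L, hL⟩ := h1 l
  obtain ⟨M, hM⟩ := h1 l⁻¹
  refine ⟨_, av_of_sides (u := fun n : ℤ => ((l ^ n : Circle) : ℂ)) (C := 1)
    (by simp) (L := L) (M := M) (hL.congr fun N => ?_) (hM.congr fun N => ?_)⟩
  · congr 1
  · congr 1
    refine Finset.sum_congr rfl fun n _ => ?_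
    simp

theorem eig_z {T : Equiv.Perm (Y × W)} {E : Y × W → ℂ} {l : Circle}
    (hE : ∀ p, E (T p) = (l : ℂ) * E p) (n : ℤ) (p : Y × W) :
    E ((T ^ n) p) = ((l ^ n : Circle) : ℂ) * E p := by
  have hl : (l : ℂ) ≠ 0 := Circle.coe_ne_zero l
  induction n generalizing p with
  | zero => simp
  | succ n ih =>
    rw [zpow_add_one, Equiv.Perm.mul_apply, ih, hE, zpow_add_one, Circle.coe_mul]
    ring
  | pred n ih =>
    rw [zpow_sub_one, Equiv.Perm.mul_apply, ih, zpow_sub_one, Circle.coe_mul, Circle.coe_inv]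
    have h1 := hE (T⁻¹ p)
    rw [← Equiv.Perm.mul_apply, mul_inv_cancel, Equiv.Perm.one_apply] at h1
    rw [h1]
    field_simp

/-- eigenfunctions -/
theorem PP'_eig (H : Sys ν ρ S T) {F : Fin K → Y × W → ℂ} (hF : ∀ i, F i ∈ Eg (T i)) :
    PP' ν ρ T F := by
  choose hb l hl using hF
  have e : ∀ y n, VV ρ T F y n = (((∏ i, l i) ^ n : Circle) : ℂ) • VV ρ T F y 0 := by
    intro y n
    rw [VV_eq H hb, VV_eq H hb, ← MemLp.toLp_const_smul]
    congr 1
    funext w
    rw [Pi.smul_apply, smul_eq_mul]
    unfold vv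
    simp_rw [eig_z (hl _) n, eig_z (hl _) 0]
    rw [Finset.prod_mul_distrib]
    simp only [zpow_zero, Circle.coe_one, one_mul]
    congr 1
    rw [← Finset.prod_zpow]
    have h1 := map_prod Circle.coeHom (fun i => l i ^ n) Finset.univ
    exact h1.symm
  refine Eventually.of_forall fun y => ?_
  obtain ⟨L, hL⟩ := av_pow (∏ i, l i)
  refine ⟨L • VV ρ T F y 0, (hL.smul_const (VV ρ T F y 0)).congr fun N => ?_⟩
  rw [avH, av, Finset.sum_congr rfl fun n _ => e y n, ← Finset.sum_smul, smul_smul]

/-- the mean convergence on the fibres -/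
theorem PP'_all (H : Sys ν ρ S T) {F : Fin K → Y × W → ℂ} (hF : ∀ i, BM (F i)) :
    PP' ν ρ T F := by
  refine ext2 (P := PP' ν ρ T) (𝒬 := fun i => (Submodule.span ℂ (Eg (T i)) : Set _))
    (𝒜 := fun _ => {f | BM f}) ?_ ?_ hF
  · intro f hf k hQ h hh
    have hfb : ∀ i, BM (f i) := fun i => by
      rcases hf i with h1 | h1
      · exact BM_span h1
      · exact h1
    obtain ⟨C, hC1, hC⟩ : ∃ C : ℝ, 1 ≤ C ∧ ∀ i p, ‖f i p‖ ≤ C := by
      choose D hD using fun i => (hfb i).2
      have h0 : 0 ≤ ∑ i, |D i| := Finset.sum_nonneg fun i _ => abs_nonneg (D i)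
      refine ⟨∑ i, |D i| + 1, by linarith, fun i p => (hD i p).trans ?_⟩
      have h1 := Finset.single_le_sum (f := fun i => |D i|) (fun i _ => abs_nonneg (D i))
        (Finset.mem_univ i)
      have h2 := le_abs_self (D i)
      linarith
    have key : ∀ j : ℕ, ∃ E ∈ Submodule.span ℂ (Eg (T k)), ∀ᵐ y ∂ν, ∀ᶠ N in atTop,
        ‖avH N (VV ρ T (Function.update f k (h - E)) y)‖ ^ 2 ≤ 1 / ((j : ℝ) + 1) := by
      intro j
      set ε : ℝ := 1 / (((j : ℝ) + 1) * ((C ^ 2) ^ K + 1)) with hε
      have hε0 : 0 < ε := by positivity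
      obtain ⟨E, hE, hQ'⟩ := decomp (H.mp k) (H.mp' k) hh (ε := ε ^ 2) (by positivity)
      refine ⟨E, hE, ?_⟩
      have h1 := small H (F := Function.update f k (h - E))
        (BM_update hfb k (BM.sub' hh (BM_span hE))) hC1 k (fun i hi p => by
          rw [Function.update_of_ne hi]
          exact hC i p) (ε := ε) (by
          rw [Function.update_self]
          exact hQ') hε0
      filter_upwards [h1] with y hy
      filter_upwards [hy] with N hN
      refine hN.trans (le_of_eq ?_)
      rw [hε]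
      field_simp
    choose E hE hE' using key
    have h1 : ∀ᵐ y ∂ν, ∀ j, ∀ᶠ N in atTop,
        ‖avH N (VV ρ T (Function.update f k (h - E j)) y)‖ ^ 2 ≤ 1 / ((j : ℝ) + 1) :=
      ae_all_iff.2 hE'
    have h2 : ∀ᵐ y ∂ν, ∀ j, ∃ L, Tendsto (fun N => avH N (VV ρ T (Function.update f k (E j)) y))
        atTop (𝓝 L) := ae_all_iff.2 fun j => hQ (E j) (hE j)
    filter_upwards [h1, h2] with y hy1 hy2
    apply cauchySeq_tendsto_of_complete
    rw [Metric.cauchySeq_iff']
    intro ε hε
    obtain ⟨j, hj⟩ := exists_nat_one_div_lt (show 0 < (ε / 4) ^ 2 by positivity)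
    obtain ⟨L, hL⟩ := hy2 j
    have h3 : ∀ N, avH N (VV ρ T (Function.update f k h) y) =
        avH N (VV ρ T (Function.update f k (h - E j)) y) +
          avH N (VV ρ T (Function.update f k (E j)) y) := by
      intro N
      rw [← avH_add]
      congr 1
      funext n
      rw [← VV_add H hfb k (BM.sub' hh (BM_span (hE j))) (BM_span (hE j)), sub_add_cancel]
    have h4 : ∀ᶠ N in atTop, ‖avH N (VV ρ T (Function.update f k (h - E j)) y)‖ < ε / 4 := by
      filter_upwards [hy1 j] with N hN
      refine lt_of_pow_lt_pow_left₀ 2 (by positivity) (hN.trans_lt hj)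
    have h5 : ∀ᶠ N in atTop, ‖avH N (VV ρ T (Function.update f k (E j)) y) - L‖ < ε / 4 := by
      have := (Metric.tendsto_nhds.1 hL) (ε / 4) (by positivity)
      filter_upwards [this] with N hN
      rwa [← dist_eq_norm]
    obtain ⟨N₀, hN₀⟩ := eventually_atTop.1 (h4.and h5)
    refine ⟨N₀, fun N hN => ?_⟩
    obtain ⟨a1, a2⟩ := hN₀ N hN
    obtain ⟨b1, b2⟩ := hN₀ N₀ le_rfl
    rw [dist_eq_norm, h3, h3]
    have e : avH N (VV ρ T (Function.update f k (h - E j)) y) +
        avH N (VV ρ T (Function.update f k (E j)) y) -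
        (avH N₀ (VV ρ T (Function.update f k (h - E j)) y) +
        avH N₀ (VV ρ T (Function.update f k (E j)) y)) =
        avH N (VV ρ T (Function.update f k (h - E j)) y) -
          avH N₀ (VV ρ T (Function.update f k (h - E j)) y) +
        ((avH N (VV ρ T (Function.update f k (E j)) y) - L) -
          (avH N₀ (VV ρ T (Function.update f k (E j)) y) - L)) := by abel
    rw [e]
    refine (norm_add_le _ _).trans_lt ?_
    have c1 := norm_sub_le (avH N (VV ρ T (Function.update f k (h - E j)) y))
      (avH N₀ (VV ρ T (Function.update f k (h - E j)) y))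
    have c2 := norm_sub_le (avH N (VV ρ T (Function.update f k (E j)) y) - L)
      (avH N₀ (VV ρ T (Function.update f k (E j)) y) - L)
    linarith
  · intro f hf
    refine ext2 (P := PP' ν ρ T) (𝒬 := fun i => Eg (T i))
      (𝒜 := fun i => (Submodule.span ℂ (Eg (T i)) : Set _)) ?_ (fun f hf => PP'_eig H hf) hf
    intro f hf k hQ e he
    refine PP'_span H (fun i => ?_) k hQ he
    rcases hf i with h1 | h1
    · exact h1.1
    · exact BM_span h1

end

end Pool.Agent.H71.IE
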