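import Pool.Agent.H71.IE.Mean

set_option autoImplicit false
set_option linter.unusedSectionVars false

/-!
# From mean convergence to convergence at every point of the fibre
-/

namespace Pool.Agent.H71.IE

open Filter Topology MeasureTheory
open scoped ComplexConjugate ENNReal
open Pool.Agent.H71.WW (av avr BM)

noncomputable section

variable {Y W : Type} [MeasurableSpace Y] [MeasurableSpace W] {ν : Measure Y}
  [IsProbabilityMeasure ν] {ρ : Measure W} [IsProbabilityMeasure ρ] {K : ℕ}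
  {S : Fin K → Equiv.Perm Y} {T : Fin K → Equiv.Perm (Y × W)}

theorem sum_VV (H : Sys ν ρ S T) {F : Fin K → Y × W → ℂ} (hF : ∀ i, BM (F i)) (y : Y)
    (s : Finset ℤ) : ∃ hm : MemLp (fun w => ∑ n ∈ s, vv T F y n w) 2 (rK ρ K),
      ∑ n ∈ s, VV ρ T F y n = hm.toLp _ := by
  classical
  induction s using Finset.induction_on with
  | empty =>
    have e : (fun w => ∑ n ∈ (∅ : Finset ℤ), vv T F y n w) = (0 : (Fin K → W) → ℂ) := by
      funext w
      simp
    rw [e]
    refine ⟨MemLp.zero, ?_⟩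
    rw [MemLp.toLp_zero, Finset.sum_empty]
  | insert a s ha ih =>
    obtain ⟨hm, h⟩ := ih
    have e : (fun w => ∑ n ∈ insert a s, vv T F y n w) =
        vv T F y a + fun w => ∑ n ∈ s, vv T F y n w := by
      funext w
      rw [Finset.sum_insert ha]
      rfl
    rw [e]
    refine ⟨(vv_mem H hF y a).add hm, ?_⟩
    rw [Finset.sum_insert ha, h, MemLp.toLp_add (vv_mem H hF y a) hm, VV_eq H hF]

theorem avH_VV (H : Sys ν ρ S T) {F : Fin K → Y × W → ℂ} (hF : ∀ i, BM (F i)) (y : Y) (N : ℕ) :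
    ∃ hm : MemLp (fun w => av N fun n => vv T F y n w) 2 (rK ρ K),
      avH N (VV ρ T F y) = hm.toLp _ := by
  obtain ⟨hm, h⟩ := sum_VV H hF y (Finset.Icc (-(N : ℤ)) (N : ℤ))
  have e : (fun w => av N fun n => vv T F y n w) = ((2 * N + 1 : ℕ) : ℂ)⁻¹ •
      fun w => ∑ n ∈ Finset.Icc (-(N : ℤ)) (N : ℤ), vv T F y n w := rfl
  rw [e]
  refine ⟨hm.const_smul _, ?_⟩
  rw [avH, h, MemLp.toLp_const_smul]

theorem norm_sq_diff (H : Sys ν ρ S T) {F : Fin K → Y × W → ℂ} (hF : ∀ i, BM (F i)) (y : Y)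
    (N M : ℕ) : ‖avH N (VV ρ T F y) - avH M (VV ρ T F y)‖ ^ 2 =
      ∫ w, ‖(av N fun n => vv T F y n w) - (av M fun n => vv T F y n w)‖ ^ 2 ∂(rK ρ K) := by
  obtain ⟨h1, e1⟩ := avH_VV H hF y N
  obtain ⟨h2, e2⟩ := avH_VV H hF y M
  rw [e1, e2, ← MemLp.toLp_sub]
  have h3 := inner_self_eq_norm_sq_to_K (𝕜 := ℂ) ((h1.sub h2).toLp _)
  rw [inner_toLp] at h3
  have h4 : ((‖(h1.sub h2).toLp ((fun w => av N fun n => vv T F y n w) -
      fun w => av M fun n => vv T F y n w)‖ ^ 2 : ℝ) : ℂ) =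
      ((∫ w, ‖(av N fun n => vv T F y n w) - (av M fun n => vv T F y n w)‖ ^ 2 ∂(rK ρ K) : ℝ) : ℂ) := by
    push_cast
    refine h3.symm.trans ?_
    rw [← integral_complex_ofReal]
    congr 1
    funext w
    rw [Pi.sub_apply, mul_comm, Complex.mul_conj, Complex.normSq_eq_norm_sq]
  exact_mod_cast h4

theorem av_bd {a : ℤ → ℂ} {C : ℝ} (h : ∀ n, ‖a n‖ ≤ C) (N : ℕ) : ‖av N a‖ ≤ C :=
  (WW.av_norm N a).trans ((WW.avr_mono h).trans (WW.avr_const N C).le)

/-- convergence at every point of equicontinuity -/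
theorem at_point (H : Sys ν ρ S T) {F : Fin K → Y × W → ℂ} (hF : ∀ i, BM (F i)) {y : Y}
    (hL : ∃ L, Tendsto (fun N => avH N (VV ρ T F y)) atTop (𝓝 L)) {w : Fin K → W}
    (heq : ∀ ε : ℝ, 0 < ε → ∃ U : Set (Fin K → W), MeasurableSet U ∧ 0 < rK ρ K U ∧
      ∀ n : ℤ, ∀ w' ∈ U, ‖vv T F y n w' - vv T F y n w‖ ≤ ε) :
    ∃ L : ℂ, Tendsto (fun N => av N fun n => vv T F y n w) atTop (𝓝 L) := by
  obtain ⟨L, hL⟩ := hL
  apply cauchySeq_tendsto_of_complete
  rw [Metric.cauchySeq_iff]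
  intro ε hε
  obtain ⟨U, hU, hU0, hUe⟩ := heq (ε / 4) (by positivity)
  set c := (rK ρ K).real U with hc
  have hc0 : 0 < c := by
    rw [hc, measureReal_def]
    exact ENNReal.toReal_pos hU0.ne' (measure_ne_top _ _)
  have hcs := (Metric.cauchySeq_iff.1 hL.cauchySeq) (Real.sqrt ((ε / 4) ^ 2 * c)) (by positivity)
  obtain ⟨N₀, hN₀⟩ := hcs
  refine ⟨N₀, fun N hN M hM => ?_⟩
  have h1 := hN₀ N hN M hM
  rw [dist_eq_norm] at h1
  have h2 : ‖avH N (VV ρ T F y) - avH M (VV ρ T F y)‖ ^ 2 < (ε / 4) ^ 2 * c := by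
    have := pow_lt_pow_left₀ h1 (norm_nonneg _) two_ne_zero
    rwa [Real.sq_sqrt (by positivity)] at this
  rw [norm_sq_diff H hF] at h2
  set g : (Fin K → W) → ℂ := fun w => (av N fun n => vv T F y n w) - (av M fun n => vv T F y n w)
    with hg
  rw [dist_eq_norm]
  show ‖g w‖ < ε
  by_contra hcon
  push Not at hcon
  have h3 : ∀ w' ∈ U, ε / 4 ≤ ‖g w'‖ := by
    intro w' hw'
    have e1 : g w - g w' = (av N fun n => vv T F y n w - vv T F y n w') -
        (av M fun n => vv T F y n w - vv T F y n w') := by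
      rw [WW.av_sub, WW.av_sub, hg]
      ring
    have e2 : ‖g w - g w'‖ ≤ ε / 4 + ε / 4 := by
      rw [e1]
      refine (norm_sub_le _ _).trans (add_le_add ?_ ?_)
      · refine av_bd (fun n => ?_) N
        rw [norm_sub_rev]
        exact hUe n w' hw'
      · refine av_bd (fun n => ?_) M
        rw [norm_sub_rev]
        exact hUe n w' hw'
    have e3 := norm_sub_norm_le (g w) (g w')
    linarith
  obtain ⟨C, hC⟩ : ∃ C : ℝ, ∀ w, ‖g w‖ ≤ C := by
    choose D hD using fun i => (hF i).2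
    refine ⟨∏ i, D i + ∏ i, D i, fun w => (norm_sub_le _ _).trans (add_le_add ?_ ?_)⟩
    · exact av_bd (fun n => vv_bd hD y n w) N
    · exact av_bd (fun n => vv_bd hD y n w) M
  have hgm : Measurable g := by
    have h : ∀ N, Measurable fun w => av N fun n => vv T F y n w := fun N =>
      (Finset.measurable_fun_sum _ fun n _ => vv_meas H hF y n).const_mul _
    exact (h N).sub (h M)
  have hgi : Integrable (fun w => ‖g w‖ ^ 2) (rK ρ K) := by
    refine Integrable.of_bound (hgm.norm.pow_const 2).aestronglyMeasurable (C ^ 2)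
      (Eventually.of_forall fun w => ?_)
    rw [Real.norm_of_nonneg (by positivity)]
    exact pow_le_pow_left₀ (norm_nonneg _) (hC w) 2
  have h4 : (ε / 4) ^ 2 * c ≤ ∫ w, ‖g w‖ ^ 2 ∂(rK ρ K) := by
    have e1 : ∫ w in U, (ε / 4) ^ 2 ∂(rK ρ K) = (ε / 4) ^ 2 * c := by
      rw [setIntegral_const, smul_eq_mul, mul_comm]
    rw [← e1]
    refine (setIntegral_mono_on (integrable_const _).integrableOn hgi.integrableOn hU fun w hw =>
      pow_le_pow_left₀ (by positivity) (h3 w hw) 2).trans ?_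
    exact setIntegral_le_integral hgi (Eventually.of_forall fun w => by positivity)
  exact absurd h2 (not_lt.2 h4)

end

end Pool.Agent.H71.IE
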