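import Pool.Agent.H71.IE.Asm

set_option autoImplicit false
set_option linter.unusedSectionVars false

/-!
# Towers of isometric extensions
-/

namespace Pool.Agent.H71.IE

open Filter Topology MeasureTheory
open scoped ENNReal
open Pool.Agent.H71.WW (av avr BM Bd Cv Cv_closed SingleGood)

noncomputable section

variable {m : ℕ}

/-- jointly ergodic, pointwise -/
def PJ {X : Type} [MeasurableSpace X] (μ : Measure X) (T : Fin m → Equiv.Perm X) : Prop :=
  ∀ f : Fin m → X → ℂ, (∀ j, BM (f j)) → ∀ᵐ x ∂μ,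
    Tendsto (fun N => av N fun n => ∏ j, f j ((T j ^ n) x)) atTop (𝓝 (∏ j, ∫ x, f j x ∂μ))

/-- jointly ergodic, weakly -/
def WJ {X : Type} [MeasurableSpace X] (μ : Measure X) (T : Fin m → Equiv.Perm X) : Prop :=
  ∀ (h : X → ℂ) (f : Fin m → X → ℂ), BM h → (∀ j, BM (f j)) →
    Tendsto (fun N => ∫ x, h x * av N (fun n => ∏ j, f j ((T j ^ n) x)) ∂μ) atTop
      (𝓝 ((∫ x, h x ∂μ) * ∏ j, ∫ x, f j x ∂μ))

/-- measure preserving in both directions -/
def MB {X : Type} [MeasurableSpace X] (μ : Measure X) (T : Fin m → Equiv.Perm X) : Prop :=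
  ∀ j, MeasurePreserving (T j) μ μ ∧ MeasurePreserving ((T j)⁻¹ : Equiv.Perm X) μ μ

variable {X : Type} [MeasurableSpace X] {μ : Measure X} [IsProbabilityMeasure μ]
  {T : Fin m → Equiv.Perm X}

theorem zmeas' {X : Type} [MeasurableSpace X] {μ : Measure X} {T : Equiv.Perm X}
    (hT : MeasurePreserving T μ μ) (hT' : MeasurePreserving (T⁻¹ : Equiv.Perm X) μ μ) (n : ℤ) :
    Measurable ((T ^ n : Equiv.Perm X) : X → X) := by
  rcases n with n | n
  · rw [Int.ofNat_eq_natCast, zpow_natCast, Equiv.Perm.coe_pow]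
    exact hT.measurable.iterate n
  · rw [zpow_negSucc, ← inv_pow, Equiv.Perm.coe_pow]
    exact hT'.measurable.iterate (n + 1)

theorem prod_BM {f : Fin m → X → ℂ} (hT : MB μ T) (hf : ∀ j, BM (f j)) (n : ℤ) :
    BM fun x => ∏ j, f j ((T j ^ n) x) := by
  choose h1 C hC using hf
  refine ⟨Finset.measurable_fun_prod _ fun j _ => (h1 j).comp
    (zmeas (hT j).1 (hT j).2 n).measurable, ∏ j, C j, fun x => ?_⟩
  rw [norm_prod]
  exact Finset.prod_le_prod (fun j _ => norm_nonneg _) fun j _ => hC j _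

theorem av_BM {f : Fin m → X → ℂ} (hT : MB μ T) (hf : ∀ j, BM (f j)) :
    ∃ C : ℝ, ∀ N, (Measurable fun x => av N fun n => ∏ j, f j ((T j ^ n) x)) ∧
      ∀ x, ‖av N fun n => ∏ j, f j ((T j ^ n) x)‖ ≤ C := by
  choose h1 C hC using hf
  refine ⟨∏ j, C j, fun N => ⟨?_, fun x => av_bd (fun n => ?_) N⟩⟩
  · exact (Finset.measurable_fun_sum _ fun n _ => (prod_BM hT (fun j => ⟨h1 j, C j, hC j⟩)
      n).1).const_mul _
  · rw [norm_prod]
    exact Finset.prod_le_prod (fun j _ => norm_nonneg _) fun j _ => hC j _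

/-- convergence almost everywhere and the weak limit -/
theorem PJ_of (hT : MB μ T) (hw : WJ μ T)
    (hc : ∀ f : Fin m → X → ℂ, (∀ j, BM (f j)) → Cv μ (fun j n x => (T j ^ n) x) f) : PJ μ T := by
  intro f hf
  obtain ⟨C, hC⟩ := av_BM hT hf
  obtain ⟨L, hLm, hL⟩ := measurable_limit_of_tendsto_metrizable_ae (L := atTop)
    (fun N => ((hC N).1.aemeasurable (μ := μ))) (hc f hf)
  set c : ℂ := ∏ j, ∫ x, f j x ∂μ with hcdef
  have hLb : ∀ᵐ x ∂μ, ‖L x‖ ≤ C := by
    filter_upwards [hL] with x hx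
    exact le_of_tendsto' hx.norm fun N => (hC N).2 x
  have hLi : Integrable L μ := Integrable.of_bound hLm.aestronglyMeasurable C hLb
  have key : ∀ s : Set X, MeasurableSet s → ∫ x in s, L x ∂μ = ∫ x in s, c ∂μ := by
    intro s hs
    have hsb : BM (s.indicator fun _ => (1 : ℂ)) := NU.ind_BM hs 1
    have h1 := hw _ f hsb hf
    have h2 : Tendsto (fun N => ∫ x, s.indicator (fun _ => (1 : ℂ)) x *
        av N (fun n => ∏ j, f j ((T j ^ n) x)) ∂μ) atTop
        (𝓝 (∫ x, s.indicator (fun _ => (1 : ℂ)) x * L x ∂μ)) := by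
      refine tendsto_integral_of_dominated_convergence (fun _ => |C|) (fun N => ?_)
        (integrable_const _) (fun N => Eventually.of_forall fun x => ?_) ?_
      · exact (hsb.1.mul (hC N).1).aestronglyMeasurable
      · rw [norm_mul]
        have h3 : ‖s.indicator (fun _ => (1 : ℂ)) x‖ ≤ 1 := by
          by_cases hx : x ∈ s <;> simp [hx]
        calc _ ≤ 1 * |C| := mul_le_mul h3 (((hC N).2 x).trans (le_abs_self C)) (norm_nonneg _)
              zero_le_one
          _ = |C| := one_mul _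
      · filter_upwards [hL] with x hx
        exact hx.const_mul _
    have h4 := tendsto_nhds_unique h2 h1
    have e1 : ∀ g : X → ℂ, ∫ x, s.indicator (fun _ => (1 : ℂ)) x * g x ∂μ = ∫ x in s, g x ∂μ := by
      intro g
      rw [← integral_indicator hs]
      congr 1
      funext x
      by_cases hx : x ∈ s <;> simp [hx]
    rw [e1] at h4
    rw [h4]
    have e2 := e1 fun _ => c
    rw [← e2, integral_mul_const]
  have h5 : L =ᵐ[μ] fun _ => c := by
    refine Integrable.ae_eq_of_forall_setIntegral_eq _ _ hLi (integrable_const c) fun s hs _ => ?_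
    exact key s hs
  filter_upwards [hL, h5] with x hx1 hx2
  rw [hx2] at hx1
  exact hx1

theorem base_pow {Y : Type} {S : Fin m → Equiv.Perm Y} {π : X → Y}
    (he : ∀ j x, π (T j x) = S j (π x)) (j : Fin m) (n : ℤ) (x : X) :
    π ((T j ^ n) x) = (S j ^ n) (π x) := by
  have hi : ∀ x, π ((T j)⁻¹ x) = (S j)⁻¹ (π x) := by
    intro x
    apply (S j).injective
    rw [← he, pinv, pinv]
  induction n generalizing x with
  | zero => rfl
  | succ n ih =>
    rw [zpow_add_one, zpow_add_one, Equiv.Perm.mul_apply, Equiv.Perm.mul_apply, ih, he]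
  | pred n ih =>
    rw [zpow_sub_one, zpow_sub_one, Equiv.Perm.mul_apply, Equiv.Perm.mul_apply, ih, hi]

/-- weak joint ergodicity passes to factors -/
theorem WJ_factor {Y : Type} [MeasurableSpace Y] {ν : Measure Y} {S : Fin m → Equiv.Perm Y}
    (hS : MB ν S) {π : X → Y} (hπ : MeasurePreserving π μ ν) (he : ∀ j x, π (T j x) = S j (π x))
    (hw : WJ μ T) : WJ ν S := by
  intro h f hh hf
  have hcomp : ∀ g : Y → ℂ, BM g → BM fun x => g (π x) := fun g hg =>
    ⟨hg.1.comp hπ.measurable, hg.2.choose, fun x => hg.2.choose_spec _⟩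
  have hint : ∀ g : Y → ℂ, AEStronglyMeasurable g ν → ∫ x, g (π x) ∂μ = ∫ y, g y ∂ν := by
    intro g hg
    rw [← hπ.map_eq] at hg ⊢
    exact (integral_map hπ.measurable.aemeasurable hg).symm
  have h1 := hw (fun x => h (π x)) (fun j x => f j (π x)) (hcomp h hh) fun j => hcomp _ (hf j)
  rw [hint h hh.1.aestronglyMeasurable] at h1
  simp_rw [fun j => hint (f j) (hf j).1.aestronglyMeasurable] at h1
  refine h1.congr fun N => ?_
  simp_rw [base_pow he]
  have h2 : Measurable fun y => av N fun n => ∏ j, f j ((S j ^ n) y) := by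
    refine (Finset.measurable_fun_sum _ fun n _ => ?_).const_mul _
    exact Finset.measurable_fun_prod _ fun j _ => (hf j).1.comp
      (zmeas' (hS j).1 (hS j).2 n)
  exact hint (fun y => h y * av N fun n => ∏ j, f j ((S j ^ n) y))
    (hh.1.mul h2).aestronglyMeasurable

/-- isometric extensions -/
theorem iso_step {Y Z : Type} [MeasurableSpace Y] {ν : Measure Y} [IsProbabilityMeasure ν]
    [PseudoMetricSpace Z] [CompactSpace Z] [MeasurableSpace Z] [BorelSpace Z] {ρ : Measure Z}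
    [IsProbabilityMeasure ρ] [ρ.IsOpenPosMeasure] {S : Fin m → Equiv.Perm Y}
    {T : Fin m → Equiv.Perm (Y × Z)} (hS : MB ν S)
    (hT : ∀ j p, (T j p).1 = S j p.1)
    (hm : ∀ j, Measurable (T j) ∧ Measurable ((T j)⁻¹ : Equiv.Perm (Y × Z)))
    (hf : ∀ j y, MeasurePreserving (fun z => (T j (y, z)).2) ρ ρ) (heq : ∀ᵐ y ∂ν, EC T y) :
    MB (ν.prod ρ) T ∧ (WJ (ν.prod ρ) T → WJ ν S) ∧
      (PJ ν S → WJ (ν.prod ρ) T → PJ (ν.prod ρ) T) := by
  have hMB : MB (ν.prod ρ) T := fun j =>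
    ⟨T_mp (κ := id) (fun k => (hS k).1) hT (fun j => (hm j).1) hf j,
      T_mp' (κ := id) (fun k => (hS k).2) hT (fun j => (hm j).2) hf j⟩
  refine ⟨hMB, fun hw => WJ_factor hS measurePreserving_fst hT hw, fun hj hw => PJ_of hMB hw
    fun f hf' => ?_⟩
  refine main (κ := id) (fun k => (hS k).1) (fun k => (hS k).2) hj hT (fun j => (hm j).1)
    (fun j => (hm j).2) hf heq fun j => ?_
  obtain ⟨h1, C, hC⟩ := hf' j
  exact memLp_top_of_bound h1.aestronglyMeasurable C (Eventually.of_forall hC)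

/-- inverse limits -/
theorem lim_step (hT : MB μ T) (Y : ℕ → Type) [∀ i, MeasurableSpace (Y i)]
    (ν : ∀ i, Measure (Y i)) (S : ∀ i, Fin m → Equiv.Perm (Y i)) (hS : ∀ i, MB (ν i) (S i))
    (π : ∀ i, X → Y i) (hπ : ∀ i, MeasurePreserving (π i) μ (ν i))
    (he : ∀ i j x, π i (T j x) = S i j (π i x))
    (hmono : ∀ i, ∃ r : Y (i + 1) → Y i, Measurable r ∧ ∀ x, π i x = r (π (i + 1) x))
    (hgen : ∀ f : X → ℂ, BM f → ∀ ε : ℝ, 0 < ε → ∃ (i : ℕ) (g : Y i → ℂ), BM g ∧
      ∫ x, ‖f x - g (π i x)‖ ∂μ ≤ ε)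
    (hj : ∀ i, WJ (ν i) (S i) → PJ (ν i) (S i)) (hw : WJ μ T) : PJ μ T := by
  have hcomp : ∀ (i : ℕ) (g : Y i → ℂ), BM g → BM fun x => g (π i x) := fun i g hg =>
    ⟨hg.1.comp (hπ i).measurable, hg.2.choose, fun x => hg.2.choose_spec _⟩
  have hup : ∀ i k, i ≤ k → ∀ g : Y i → ℂ, BM g → ∃ g' : Y k → ℂ, BM g' ∧
      ∀ x, g (π i x) = g' (π k x) := by
    intro i k hik
    induction k, hik using Nat.le_induction with
    | base => exact fun g hg => ⟨g, hg, fun x => rfl⟩
    | succ k _ ih =>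
      intro g hg
      obtain ⟨g', hg', h1⟩ := ih g hg
      obtain ⟨r, hr, h2⟩ := hmono k
      refine ⟨fun y => g' (r y), ⟨hg'.1.comp hr, hg'.2.choose, fun y => hg'.2.choose_spec _⟩,
        fun x => ?_⟩
      rw [h1, h2]
  have mp : ∀ j (n : ℤ), MeasurePreserving (fun p => (T j ^ n) p) μ μ :=
    fun j n => zmeas (hT j).1 (hT j).2 n
  have hsg : ∀ j, SingleGood μ (fun (n : ℤ) (p : X) => (T j ^ n) p) := by
    intro j
    have h1 := NU.good_lin (P := μ) (a := T j) (b := 1) (hT j).1 (hT j).2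
      (MeasurePreserving.id _)
    simp only [mul_one] at h1
    exact h1
  refine PJ_of hT hw fun f hf => ?_
  refine ext2 (P := Cv μ fun j n p => (T j ^ n) p)
      (𝒬 := fun _ => {F | ∃ (i : ℕ) (g : Y i → ℂ), BM g ∧ F = fun x => g (π i x)})
      (𝒜 := fun _ => {f | BM f}) ?_ ?_ hf
  · intro f hf k hQ h hh
    have hfb : ∀ j, Bd (f j) := by
      intro j
      rcases hf j with ⟨i, g, hg, h1⟩ | h1
      · rw [h1]
        exact (hcomp i g hg).2
      · exact h1.2
    have hh' : BM h := hh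
    have h3 : ∀ ε : ℝ, 0 < ε → ∃ f' : X → ℂ, BM f' ∧ ∫ x, ‖h x - f' x‖ ∂μ ≤ ε ∧
        Cv μ (fun j (n : ℤ) p => (T j ^ n) p) (Function.update f k f') := by
      intro ε hε
      obtain ⟨i, g, hg, hgi⟩ := hgen h hh' ε hε
      exact ⟨fun x => g (π i x), hcomp i g hg, hgi, hQ _ ⟨i, g, hg, rfl⟩⟩
    exact Cv_closed (g := fun j (n : ℤ) p => (T j ^ n) p) (F := f) (j := k) hfb (mp k) (hsg k)
      hh' h3
  · intro f hf
    choose i g hg hfg using hf
    obtain ⟨k, hk⟩ : ∃ k, ∀ j, i j ≤ k :=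
      ⟨∑ j, i j, fun j => Finset.single_le_sum (fun _ _ => Nat.zero_le _) (Finset.mem_univ j)⟩
    choose g' hg' h1 using fun j => hup (i j) k (hk j) (g j) (hg j)
    have h2 := hj k (WJ_factor (hS k) (hπ k) (he k) hw) g' hg'
    have h3 := (hπ k).quasiMeasurePreserving.ae h2
    filter_upwards [h3] with x hx
    refine ⟨_, hx.congr fun N => ?_⟩
    congr 1
    funext n
    refine Finset.prod_congr rfl fun j _ => ?_
    rw [hfg j]
    simp only
    rw [h1, base_pow (he k)]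

end

end Pool.Agent.H71.IE
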